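import Pool.Agent.Q329.DP.Gr2

/-!
# Completeness: a satisfying assignment gives a partition into triangles
-/

namespace Pool.Agent.Q329.DP

open Pool.Agent.H243R3.TP

variable {f : ℕ → ℕ} {n : ℕ} {sg : ℕ → Bool}

/-- The core `u` and the next core are in one triangle. -/
def On (f : ℕ → ℕ) (al : ℕ → Bool) (u : ℕ × ℕ) : Prop := al (f u.1) = decide (u.2 % 2 = 0)

instance (f : ℕ → ℕ) (al : ℕ → Bool) (u : ℕ × ℕ) : Decidable (On f al u) := by
  unfold On; infer_instance

/-- The position is chosen by its clause. -/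
def Chn (ch : ℕ → ℕ) (l : ℕ) : Prop := l = 3 * (l / 3) + ch (l / 3)

instance (ch : ℕ → ℕ) (l : ℕ) : Decidable (Chn ch l) := by unfold Chn; infer_instance

/-- The other copy. -/
def crs (a : Lb) : Lb := ((a.1 + 1) % 3, a.2)

/-- The next vertex of the triangle. -/
def tau (f : ℕ → ℕ) (n : ℕ) (sg : ℕ → Bool) (al : ℕ → Bool) (ch : ℕ → ℕ) (a : Lb) : Lb :=
  if a.2.2 < 4 then
    (if On f al a.2 then (a.1, suc f n a.2) else (a.1, ((pr f n a.2).1, (pr f n a.2).2 + 4)))
  else if a.2.2 < 8 then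
    (if On f al (a.2.1, a.2.2 - 4) then (a.1, (a.2.1, a.2.2 - 4))
      else if a.2.2 = off sg a.2.1 ∧ Chn ch a.2.1 then (a.1, (a.2.1, 8)) else crs a)
  else if a.2.2 = 8 then (if Chn ch a.2.1 then (a.1, (3 * (a.2.1 / 3), 9)) else crs a)
  else (if a.2.1 % 3 = 0 then (a.1, (a.2.1 + ch (a.2.1 / 3), off sg (a.2.1 + ch (a.2.1 / 3))))
    else crs a)

variable {al : ℕ → Bool} {ch : ℕ → ℕ}

theorem crs3 {a : Lb} (h : a.1 < 3) : crs (crs (crs a)) = a := by
  unfold crs
  refine Prod.ext ?_ rfl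
  simp only
  omega

theorem on_suc {u : ℕ × ℕ} (hu : u.1 < n) (h4 : u.2 < 4) : On f al (suc f n u) ↔ ¬ On f al u := by
  unfold On
  rw [f_suc (f := f) hu]
  have := suc_mod (f := f) (n := n) h4
  have h1 : (suc f n u).2 % 2 = (u.2 + 1) % 2 := by omega
  rw [h1]
  rcases Nat.mod_two_eq_zero_or_one u.2 with h | h
  · have h2 : (u.2 + 1) % 2 = 1 := by omega
    rw [h, h2]
    cases al (f u.1) <;> simp
  · have h2 : (u.2 + 1) % 2 = 0 := by omega
    rw [h, h2]
    cases al (f u.1) <;> simp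

theorem on_pr {u : ℕ × ℕ} (hu : u.1 < n) (h4 : u.2 < 4) : On f al (pr f n u) ↔ ¬ On f al u := by
  have h1 := on_suc (f := f) (al := al) (u := pr f n u) (pr_fst_lt hu) (pr_lt h4)
  rw [suc_pr hu h4] at h1
  tauto

theorem tau_core_on {r : ℕ} {u : ℕ × ℕ} (h4 : u.2 < 4) (h : On f al u) :
    tau f n sg al ch (r, u) = (r, suc f n u) := by
  unfold tau
  simp [h4, h]

theorem tau_core_off {r : ℕ} {u : ℕ × ℕ} (h4 : u.2 < 4) (h : ¬ On f al u) :
    tau f n sg al ch (r, u) = (r, ((pr f n u).1, (pr f n u).2 + 4)) := by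
  unfold tau
  simp [h4, h]

theorem tau_tip_on {r : ℕ} {p : ℕ × ℕ} (h4 : p.2 < 4) (h : On f al p) :
    tau f n sg al ch (r, (p.1, p.2 + 4)) = (r, p) := by
  unfold tau
  have h1 : ¬ (p.2 + 4 < 4) := by omega
  have h2 : p.2 + 4 < 8 := by omega
  simp only [h1, h2, if_true, if_false, Nat.add_sub_cancel]
  rw [if_pos h]

theorem tau_tip_chn {r : ℕ} {p : ℕ × ℕ} (h4 : p.2 < 4) (h : ¬ On f al p)
    (h' : p.2 + 4 = off sg p.1) (h'' : Chn ch p.1) :
    tau f n sg al ch (r, (p.1, p.2 + 4)) = (r, (p.1, 8)) := by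
  unfold tau
  have h1 : ¬ (p.2 + 4 < 4) := by omega
  have h2 : p.2 + 4 < 8 := by omega
  simp only [h1, h2, if_true, if_false, Nat.add_sub_cancel]
  rw [if_neg h, if_pos ⟨h', h''⟩]

theorem tau_tip_crs {r : ℕ} {p : ℕ × ℕ} (h4 : p.2 < 4) (h : ¬ On f al p)
    (h' : ¬ (p.2 + 4 = off sg p.1 ∧ Chn ch p.1)) :
    tau f n sg al ch (r, (p.1, p.2 + 4)) = crs (r, (p.1, p.2 + 4)) := by
  unfold tau
  have h1 : ¬ (p.2 + 4 < 4) := by omega
  have h2 : p.2 + 4 < 8 := by omega
  simp only [h1, h2, if_true, if_false, Nat.add_sub_cancel]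
  rw [if_neg h, if_neg h']

theorem tau_eight {r l : ℕ} : tau f n sg al ch (r, (l, 8)) =
    if Chn ch l then (r, (3 * (l / 3), 9)) else crs (r, (l, 8)) := by
  unfold tau
  simp

theorem tau_nine {r l : ℕ} : tau f n sg al ch (r, (l, 9)) =
    if l % 3 = 0 then (r, (l + ch (l / 3), off sg (l + ch (l / 3)))) else crs (r, (l, 9)) := by
  unfold tau
  simp

/-- The literal that the clause has chosen is true. -/
def Good (f : ℕ → ℕ) (n : ℕ) (sg : ℕ → Bool) (al : ℕ → Bool) (ch : ℕ → ℕ) : Prop :=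
  n % 3 = 0 ∧ (∀ j, ch j < 3) ∧ ∀ l < n, Chn ch l → ¬ On f al (l, off sg l - 4)

theorem tau_spec (hG : Good f n sg al ch) {a : Lb} (ha : VL n a) :
    VL n (tau f n sg al ch a) ∧ tau f n sg al ch (tau f n sg al ch (tau f n sg al ch a)) = a ∧
      Ad f n sg a (tau f n sg al ch a) := by
  obtain ⟨hn, hch, hG⟩ := hG
  obtain ⟨r, u⟩ := a
  obtain ⟨hr, hu, hu10⟩ := ha
  simp only at hr hu hu10
  -- crossing is adjacent
  have hcrs : ∀ l i, l < n → 4 ≤ i → i < 10 → ¬ (i = 9 ∧ l % 3 = 0) →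
      VL n (crs (r, (l, i))) ∧ Ad f n sg (r, (l, i)) (crs (r, (l, i))) := by
    intro l i hl hi hi' h9
    refine ⟨⟨?_, hl, hi'⟩, Or.inr ⟨?_, rfl, hi, h9⟩⟩
    · unfold crs
      simp only
      omega
    · unfold crs
      simp only
      omega
  rcases Nat.lt_or_ge u.2 4 with h4 | h4
  · -- cores
    by_cases hon : On f al u
    · rw [tau_core_on h4 hon]
      have hoff : ¬ On f al (suc f n u) := by
        rw [on_suc hu h4]
        exact fun h => h hon
      rw [tau_core_off (suc_lt h4) hoff, pr_suc hu h4, tau_tip_on h4 hon]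
      refine ⟨⟨hr, suc_fst_lt hu, ?_⟩, rfl, Or.inl ⟨rfl, Or.inl (Or.inl ⟨h4, rfl⟩)⟩⟩
      have := suc_lt (f := f) (n := n) h4
      simp only
      omega
    · rw [tau_core_off h4 hon]
      have hpon : On f al (pr f n u) := (on_pr hu h4).2 hon
      rw [tau_tip_on (pr_lt h4) hpon, tau_core_on (pr_lt h4) hpon, suc_pr hu h4]
      have := pr_lt (f := f) (n := n) h4
      refine ⟨⟨hr, pr_fst_lt hu, by simp only; omega⟩, rfl, Or.inl ⟨rfl, Or.inl ?_⟩⟩
      right; right; left
      simp only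
      refine ⟨by omega, by omega, ?_⟩
      rw [Nat.add_sub_cancel, suc_pr hu h4]
  rcases Nat.lt_or_ge u.2 8 with h8 | h8
  · -- tips
    obtain ⟨p, hp⟩ : ∃ p : ℕ × ℕ, u = (p.1, p.2 + 4) := ⟨(u.1, u.2 - 4), Prod.ext rfl (by
      simp only
      omega)⟩
    subst hp
    simp only at hu hu10 h4 h8
    have hp4 : p.2 < 4 := by omega
    by_cases hon : On f al p
    · rw [tau_tip_on hp4 hon]
      have hoff : ¬ On f al (suc f n p) := by
        rw [on_suc hu hp4]
        exact fun h => h hon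
      rw [tau_core_on hp4 hon, tau_core_off (suc_lt hp4) hoff, pr_suc hu hp4]
      refine ⟨⟨hr, hu, by simp only; omega⟩, rfl, Or.inl ⟨rfl, Or.inr ?_⟩⟩
      right; left
      exact ⟨hp4, rfl⟩
    · by_cases hc : p.2 + 4 = off sg p.1 ∧ Chn ch p.1
      · rw [tau_tip_chn hp4 hon hc.1 hc.2, tau_eight, if_pos hc.2, tau_nine]
        have e1 : 3 * (p.1 / 3) % 3 = 0 := by omega
        have e2 : 3 * (p.1 / 3) / 3 = p.1 / 3 := by omega
        rw [if_pos e1, e2]
        have e3 : 3 * (p.1 / 3) + ch (p.1 / 3) = p.1 := by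
          have := hc.2
          unfold Chn at this
          exact this.symm
        rw [e3, ← hc.1]
        refine ⟨⟨hr, hu, by simp only; omega⟩, rfl, Or.inl ⟨rfl, Or.inl ?_⟩⟩
        right; right; right; left
        exact ⟨rfl, by simp only; rw [hc.1]⟩
      · have key : ∀ s, tau f n sg al ch (s, (p.1, p.2 + 4)) = crs (s, (p.1, p.2 + 4)) :=
          fun s => tau_tip_crs hp4 hon hc
        rw [key]
        have k2 : tau f n sg al ch (crs (r, (p.1, p.2 + 4))) = crs (crs (r, (p.1, p.2 + 4))) :=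
          key _
        have k3 : tau f n sg al ch (crs (crs (r, (p.1, p.2 + 4)))) =
            crs (crs (crs (r, (p.1, p.2 + 4)))) := key _
        rw [k2, k3]
        obtain ⟨c1, c2⟩ := hcrs p.1 (p.2 + 4) hu (by omega) hu10 (by omega)
        exact ⟨c1, crs3 hr, c2⟩
  obtain ⟨l, i⟩ := u
  simp only at hu hu10 h4 h8
  obtain rfl | rfl : i = 8 ∨ i = 9 := by omega
  · -- private vertices
    by_cases hc : Chn ch l
    · rw [tau_eight, if_pos hc, tau_nine]
      have e1 : 3 * (l / 3) % 3 = 0 := by omega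
      have e2 : 3 * (l / 3) / 3 = l / 3 := by omega
      rw [if_pos e1, e2]
      have e3 : 3 * (l / 3) + ch (l / 3) = l := by
        unfold Chn at hc
        exact hc.symm
      rw [e3]
      have o := off4 (sg := sg) l
      have e4 : (l, off sg l) = (((l, off sg l - 4) : ℕ × ℕ).1, ((l, off sg l - 4) : ℕ × ℕ).2 + 4) := by
        refine Prod.ext rfl ?_
        simp only
        omega
      rw [e4, tau_tip_chn (by simp only; omega) (hG l hu hc) (by simp only; omega) hc]
      refine ⟨⟨hr, by simp only; omega, by simp only; omega⟩, rfl, Or.inl ⟨rfl, Or.inl ?_⟩⟩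
      right; right; right; right
      exact ⟨rfl, rfl, Or.inr rfl⟩
    · have key : ∀ s, tau f n sg al ch (s, (l, 8)) = crs (s, (l, 8)) := by
        intro s
        rw [tau_eight, if_neg hc]
      rw [key]
      have k2 : tau f n sg al ch (crs (r, (l, 8))) = crs (crs (r, (l, 8))) := key _
      have k3 : tau f n sg al ch (crs (crs (r, (l, 8)))) = crs (crs (crs (r, (l, 8)))) := key _
      rw [k2, k3]
      obtain ⟨c1, c2⟩ := hcrs l 8 hu (by omega) hu10 (by omega)
      exact ⟨c1, crs3 hr, c2⟩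
  · -- clause vertices and dummies
    by_cases h3 : l % 3 = 0
    · rw [tau_nine, if_pos h3]
      set k := l + ch (l / 3) with hk
      have hc3 := hch (l / 3)
      have ek : k / 3 = l / 3 := by omega
      have hc : Chn ch k := by
        unfold Chn
        rw [ek]
        omega
      have hkn : k < n := by omega
      have o := off4 (sg := sg) k
      have e4 : (k, off sg k) = (((k, off sg k - 4) : ℕ × ℕ).1, ((k, off sg k - 4) : ℕ × ℕ).2 + 4) := by
        refine Prod.ext rfl ?_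
        simp only
        omega
      have e5 : tau f n sg al ch (r, (k, off sg k)) = (r, (k, 8)) := by
        rw [e4, tau_tip_chn (by simp only; omega) (hG k hkn hc) (by simp only; omega) hc]
      rw [e5, tau_eight, if_pos hc, ek]
      have e6 : 3 * (l / 3) = l := by omega
      rw [e6]
      refine ⟨⟨hr, hkn, by simp only; omega⟩, rfl, Or.inl ⟨rfl, Or.inr ?_⟩⟩
      right; right; right; right
      refine ⟨rfl, ?_, Or.inl rfl⟩
      simp only
      omega
    · have key : ∀ s, tau f n sg al ch (s, (l, 9)) = crs (s, (l, 9)) := by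
        intro s
        rw [tau_nine, if_neg h3]
      rw [key]
      have k2 : tau f n sg al ch (crs (r, (l, 9))) = crs (crs (r, (l, 9))) := key _
      have k3 : tau f n sg al ch (crs (crs (r, (l, 9)))) = crs (crs (crs (r, (l, 9)))) := key _
      rw [k2, k3]
      obtain ⟨c1, c2⟩ := hcrs l 9 hu (by omega) hu10 (by omega)
      exact ⟨c1, crs3 hr, c2⟩

end Pool.Agent.Q329.DP
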