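import Pool.Agent.NPC.Classes
import Pool.Agent.H671R2.ZDefs

/-!
# Dense Graph Partition: definitions
-/

namespace Pool.Agent.Q329.DP

open Pool.Agent.NPC

open Classical in
/-- The number of edges of the graph with both ends in `P`. -/
noncomputable def edgesIn {n : ℕ} (G : SimpleGraph (Fin n)) (P : Finset (Fin n)) : ℕ :=
  ((P ×ˢ P).filter fun p => p.1 < p.2 ∧ G.Adj p.1 p.2).card

/-- The part with the label `c`. -/
def part {n : ℕ} (lab : Fin n → ℕ) (c : ℕ) : Finset (Fin n) :=
  Finset.univ.filter fun v => lab v = c

/-- The density of the partition into the sets of vertices with the same label: the sum over all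
parts of the number of edges inside the part divided by the number of its vertices. (Every partition
of the vertices into nonempty parts is given by a labelling.) -/
noncomputable def density {n : ℕ} (G : SimpleGraph (Fin n)) (lab : Fin n → ℕ) : ℝ :=
  ∑ c ∈ Finset.univ.image lab, (edgesIn G (part lab c) : ℝ) / ((part lab c).card : ℝ)

/-- The algorithm `A` is a polynomial-time algorithm which writes, for every graph (given by its
adjacency matrix), a partition whose density is at least `1 - ε` times the density of every
partition. -/
def Approx (ε : ℝ) (A : List Bool → List Bool) : Prop :=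
  PolyTime A ∧ ∀ (n : ℕ) (G : SimpleGraph (Fin n)), ∃ lab : Fin n → ℕ,
    A (bits (R671.adjMatrix G)) = bits (List.ofFn lab) ∧
    ∀ lab' : Fin n → ℕ, (1 - ε) * density G lab' ≤ density G lab

end Pool.Agent.Q329.DP
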