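import Pool.Agent.Q329.DP.Defs

/-!
# Density of partitions of graphs in which every edge is in at most one triangle
-/

namespace Pool.Agent.Q329.DP

open Finset

section ee

variable {V : Type*} [DecidableEq V] (G : SimpleGraph V) [DecidableRel G.Adj]

/-- The number of ordered pairs of adjacent vertices in `P`. -/
def ee (P : Finset V) : ℕ := ∑ x ∈ P, (P.filter fun y => G.Adj x y).card

/-- Every edge is in at most one triangle. -/
def DF (G : SimpleGraph V) : Prop :=
  ∀ a b c d, G.Adj a b → G.Adj a c → G.Adj b c → G.Adj a d → G.Adj b d → c = d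

theorem cross_comm (Q R : Finset V) :
    ∑ x ∈ Q, (R.filter fun y => G.Adj x y).card = ∑ x ∈ R, (Q.filter fun y => G.Adj x y).card := by
  simp only [card_filter]
  rw [sum_comm]
  refine sum_congr rfl fun x _ => sum_congr rfl fun y _ => ?_
  simp only [G.adj_comm]

theorem ee_union {Q R : Finset V} (h : Disjoint Q R) :
    ee G (Q ∪ R) = ee G Q + ee G R + 2 * ∑ x ∈ R, (Q.filter fun y => G.Adj x y).card := by
  unfold ee
  rw [sum_union h]
  have h1 : ∀ x, ((Q ∪ R).filter fun y => G.Adj x y).card =
      (Q.filter fun y => G.Adj x y).card + (R.filter fun y => G.Adj x y).card := by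
    intro x
    rw [filter_union, card_union_of_disjoint]
    exact disjoint_filter_filter h
  simp only [h1, sum_add_distrib]
  rw [cross_comm G Q R]
  ring

theorem ee_bound (hG : DF G) : ∀ (k : ℕ) (P : Finset V), P.card = k →
    2 * ee G P ≤ k ^ 2 ∨ (k = 3 ∧ ee G P = 6 ∧ ∀ x ∈ P, ∀ y ∈ P, x ≠ y → G.Adj x y) := by
  intro k
  induction k using Nat.strong_induction_on with
  | _ k ih =>
    intro P hP
    by_cases hT : ∃ a ∈ P, ∃ b ∈ P, ∃ c ∈ P, G.Adj a b ∧ G.Adj a c ∧ G.Adj b c
    · obtain ⟨a, ha, b, hb, c, hc, hab, hac, hbc⟩ := hT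
      have nab := hab.ne
      have nac := hac.ne
      have nbc := hbc.ne
      set Q : Finset V := {a, b, c} with hQ
      have hQc : Q.card = 3 := by
        rw [hQ, card_eq_three]
        exact ⟨a, b, c, nab, nac, nbc, rfl⟩
      have hQP : Q ⊆ P := by
        intro x hx
        rw [hQ, mem_insert, mem_insert, mem_singleton] at hx
        rcases hx with rfl | rfl | rfl <;> assumption
      have hQadj : ∀ x ∈ Q, ∀ y ∈ Q, x ≠ y → G.Adj x y := by
        intro x hx y hy hxy
        rw [hQ, mem_insert, mem_insert, mem_singleton] at hx hy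
        rcases hx with rfl | rfl | rfl <;> rcases hy with rfl | rfl | rfl
        all_goals first
          | exact absurd rfl hxy
          | assumption
          | exact hab.symm
          | exact hac.symm
          | exact hbc.symm
      have heQ : ee G Q = 6 := by
        have h1 : ∀ x ∈ Q, (Q.filter fun y => G.Adj x y).card = 2 := by
          intro x hx
          have h2 : (Q.filter fun y => G.Adj x y) = Q.erase x := by
            ext y
            rw [mem_filter, mem_erase]
            constructor
            · rintro ⟨h3, h4⟩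
              exact ⟨h4.ne', h3⟩
            · rintro ⟨h3, h4⟩
              exact ⟨h4, hQadj x hx y h4 h3.symm⟩
          rw [h2, card_erase_of_mem hx, hQc]
        unfold ee
        rw [sum_congr rfl h1, sum_const, hQc]
        rfl
      set R := P \ Q with hR
      have hdis : Disjoint Q R := disjoint_sdiff
      have hPQR : P = Q ∪ R := by rw [hR, union_sdiff_of_subset hQP]
      have hRc : R.card + 3 = k := by
        rw [← hP, ← hQc, hR, card_sdiff_add_card_eq_card hQP]
      have hcross : ∑ x ∈ R, (Q.filter fun y => G.Adj x y).card ≤ R.card := by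
        refine (sum_le_card_nsmul _ _ 1 ?_).trans (by simp)
        intro x hx
        rw [card_le_one]
        intro y hy z hz
        rw [mem_filter] at hy hz
        by_contra hne
        -- the third vertex of the triangle is `x`
        have hxQ : x ∉ Q := (mem_sdiff.1 hx).2
        have h3 : ∃ w ∈ Q, w ≠ y ∧ w ≠ z := by
          have h4 : ((Q.erase y).erase z).Nonempty := by
            rw [← card_pos, card_erase_of_mem, card_erase_of_mem hy.1, hQc]
            · norm_num
            · rw [mem_erase]
              exact ⟨Ne.symm hne, hz.1⟩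
          obtain ⟨w, hw⟩ := h4
          rw [mem_erase, mem_erase] at hw
          exact ⟨w, hw.2.2, hw.2.1, hw.1⟩
        obtain ⟨w, hw, hwy, hwz⟩ := h3
        have h5 := hG y z w x (hQadj y hy.1 z hz.1 hne) (hQadj y hy.1 w hw hwy.symm)
          (hQadj z hz.1 w hw hwz.symm) hy.2.symm hz.2.symm
        exact hxQ (h5 ▸ hw)
      have hee : ee G P = 6 + ee G R + 2 * ∑ x ∈ R, (Q.filter fun y => G.Adj x y).card := by
        conv_lhs => rw [hPQR]
        rw [ee_union G hdis, heQ]
      rcases Nat.eq_zero_or_pos R.card with h0 | h0
      · right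
        have hR0 : R = ∅ := card_eq_zero.1 h0
        have hPQ : P = Q := by rw [hPQR, hR0, union_empty]
        refine ⟨by omega, by rw [hPQ]; exact heQ, by rw [hPQ]; exact hQadj⟩
      · left
        rcases ih R.card (by omega) R rfl with h1 | ⟨h1, h2, _⟩
        · rcases Nat.lt_or_ge R.card 2 with h3 | h3
          · have h4 : R.card = 1 := by omega
            have h5 : k = 4 := by omega
            rw [h4] at h1
            rw [h5]
            omega
          · have hk : k = R.card + 3 := by omega
            rw [hk]
            nlinarith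
        · have hk : k = 6 := by omega
          rw [hk]
          omega
    · left
      by_cases hE : ∃ a ∈ P, ∃ b ∈ P, G.Adj a b
      · obtain ⟨a, ha, b, hb, hab⟩ := hE
        set Q : Finset V := {a, b} with hQ
        have hQc : Q.card = 2 := card_pair hab.ne
        have hQP : Q ⊆ P := by
          intro x hx
          rw [hQ, mem_insert, mem_singleton] at hx
          rcases hx with rfl | rfl <;> assumption
        have heQ : ee G Q = 2 := by
          unfold ee
          rw [hQ, sum_pair hab.ne]
          have h1 : (({a, b} : Finset V).filter fun y => G.Adj a y) = {b} := by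
            ext y
            simp only [mem_filter, mem_insert, mem_singleton]
            constructor
            · rintro ⟨h2 | h2, h3⟩
              · exact absurd h3 (by rw [h2]; exact G.irrefl)
              · exact h2
            · rintro rfl
              exact ⟨Or.inr rfl, hab⟩
          have h1' : (({a, b} : Finset V).filter fun y => G.Adj b y) = {a} := by
            ext y
            simp only [mem_filter, mem_insert, mem_singleton]
            constructor
            · rintro ⟨h2 | h2, h3⟩
              · exact h2
              · exact absurd h3 (by rw [h2]; exact G.irrefl)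
            · rintro rfl
              exact ⟨Or.inl rfl, hab.symm⟩
          rw [h1, h1']
          rfl
        set R := P \ Q with hR
        have hdis : Disjoint Q R := disjoint_sdiff
        have hPQR : P = Q ∪ R := by rw [hR, union_sdiff_of_subset hQP]
        have hRc : R.card + 2 = k := by
          rw [← hP, ← hQc, hR, card_sdiff_add_card_eq_card hQP]
        have hcross : ∑ x ∈ R, (Q.filter fun y => G.Adj x y).card ≤ R.card := by
          refine (sum_le_card_nsmul _ _ 1 ?_).trans (by simp)
          intro x hx
          rw [card_le_one]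
          intro y hy z hz
          rw [mem_filter] at hy hz
          by_contra hne
          have hyz : G.Adj y z := by
            have h1 := hy.1
            have h2 := hz.1
            rw [hQ, mem_insert, mem_singleton] at h1 h2
            rcases h1 with rfl | rfl <;> rcases h2 with rfl | rfl
            · exact absurd rfl hne
            · exact hab
            · exact hab.symm
            · exact absurd rfl hne
          exact hT ⟨x, (mem_sdiff.1 hx).1, y, hQP hy.1, z, hQP hz.1, hy.2, hz.2, hyz⟩
        have hee : ee G P = 2 + ee G R + 2 * ∑ x ∈ R, (Q.filter fun y => G.Adj x y).card := by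
          conv_lhs => rw [hPQR]
          rw [ee_union G hdis, heQ]
        rcases ih R.card (by omega) R rfl with h1 | ⟨h1, h2, h3⟩
        · have hk : k = R.card + 2 := by omega
          rw [hk]
          nlinarith
        · exfalso
          obtain ⟨x, y, z, hxy, hxz, hyz, hRe⟩ := card_eq_three.1 h1
          have m1 : x ∈ R := by rw [hRe]; simp
          have m2 : y ∈ R := by rw [hRe]; simp
          have m3 : z ∈ R := by rw [hRe]; simp
          exact hT ⟨x, (mem_sdiff.1 m1).1, y, (mem_sdiff.1 m2).1, z, (mem_sdiff.1 m3).1,
            h3 x m1 y m2 hxy, h3 x m1 z m3 hxz, h3 y m2 z m3 hyz⟩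
      · have h0 : ee G P = 0 := by
          unfold ee
          refine sum_eq_zero fun x hx => ?_
          rw [card_eq_zero, filter_eq_empty_iff]
          intro y hy h
          exact hE ⟨x, hx, y, hy, h⟩
        rw [h0]
        exact Nat.zero_le _

end ee

section density

open Classical

variable {n : ℕ} (G : SimpleGraph (Fin n))

theorem two_edgesIn (P : Finset (Fin n)) : 2 * edgesIn G P = ee G P := by
  have h1 : ee G P = ((P ×ˢ P).filter fun p => G.Adj p.1 p.2).card := by
    unfold ee
    rw [card_filter, sum_product]
    exact sum_congr rfl fun x _ => by rw [card_filter]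
  have h2 : ((P ×ˢ P).filter fun p => G.Adj p.1 p.2) =
      ((P ×ˢ P).filter fun p => p.1 < p.2 ∧ G.Adj p.1 p.2) ∪
      ((P ×ˢ P).filter fun p => p.2 < p.1 ∧ G.Adj p.1 p.2) := by
    ext p
    rw [mem_union, mem_filter, mem_filter, mem_filter]
    constructor
    · rintro ⟨h3, h4⟩
      rcases lt_or_gt_of_ne h4.ne with h5 | h5
      · exact Or.inl ⟨h3, h5, h4⟩
      · exact Or.inr ⟨h3, h5, h4⟩
    · rintro (⟨h3, _, h4⟩ | ⟨h3, _, h4⟩)
      · exact ⟨h3, h4⟩
      · exact ⟨h3, h4⟩
  have h3 : Disjoint ((P ×ˢ P).filter fun p => p.1 < p.2 ∧ G.Adj p.1 p.2)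
      ((P ×ˢ P).filter fun p => p.2 < p.1 ∧ G.Adj p.1 p.2) := by
    rw [disjoint_left]
    intro p hp hp'
    rw [mem_filter] at hp hp'
    exact lt_asymm hp.2.1 hp'.2.1
  have h4 : ((P ×ˢ P).filter fun p => p.2 < p.1 ∧ G.Adj p.1 p.2).card = edgesIn G P := by
    unfold edgesIn
    refine card_bij (fun p _ => (p.2, p.1)) ?_ ?_ ?_
    · intro p hp
      rw [mem_filter, mem_product] at hp ⊢
      exact ⟨⟨hp.1.2, hp.1.1⟩, hp.2.1, hp.2.2.symm⟩
    · rintro ⟨a, b⟩ _ ⟨c, d⟩ _ h
      simp only [Prod.mk.injEq] at h
      exact Prod.ext h.2 h.1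
    · rintro ⟨a, b⟩ hp
      rw [mem_filter, mem_product] at hp
      refine ⟨(b, a), ?_, rfl⟩
      rw [mem_filter, mem_product]
      exact ⟨⟨hp.1.2, hp.1.1⟩, hp.2.1, hp.2.2.symm⟩
  rw [h1, h2, card_union_of_disjoint h3, h4]
  unfold edgesIn
  omega

/-- The part of `v` is a triangle. -/
def Cov (lab : Fin n → ℕ) (v : Fin n) : Prop :=
  (part lab (lab v)).card = 3 ∧
    ∀ x ∈ part lab (lab v), ∀ y ∈ part lab (lab v), x ≠ y → G.Adj x y

theorem mem_part {lab : Fin n → ℕ} {c : ℕ} {v : Fin n} : v ∈ part lab c ↔ lab v = c := by
  unfold part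
  rw [mem_filter]
  exact ⟨fun h => h.2, fun h => ⟨mem_univ _, h⟩⟩

theorem density_sum (lab : Fin n → ℕ) (w : Fin n → ℝ)
    (R : ℝ → ℝ → Prop) (hR0 : R 0 0) (hR : ∀ a b c d, R a b → R c d → R (a + c) (b + d))
    (h : ∀ c ∈ univ.image lab, R ((edgesIn G (part lab c) : ℝ) / ((part lab c).card : ℝ))
      (∑ v ∈ part lab c, w v)) : R (density G lab) (∑ v, w v) := by
  have h1 : ∑ v, w v = ∑ c ∈ univ.image lab, ∑ v ∈ part lab c, w v := by
    unfold part
    exact (sum_fiberwise_of_maps_to (s := univ) (t := univ.image lab) (g := lab)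
      (fun v _ => mem_image_of_mem _ (mem_univ v)) w).symm
  rw [h1]
  unfold density
  revert h
  generalize univ.image lab = s
  intro h
  induction s using Finset.induction_on with
  | empty => simpa using hR0
  | insert c s hc ih =>
    rw [sum_insert hc, sum_insert hc]
    exact hR _ _ _ _ (h c (mem_insert_self _ _)) (ih fun c' hc' => h c' (mem_insert_of_mem hc'))

/-- The upper bound for the density. -/
theorem density_le (hG : DF G) (lab : Fin n → ℕ) :
    density G lab ≤ (n : ℝ) / 3 - ((univ.filter fun v => ¬ Cov G lab v).card : ℝ) / 12 := by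
  have h1 := density_sum G lab (fun v => if ¬ Cov G lab v then (1 / 4 : ℝ) else 1 / 3)
    (fun a b => a ≤ b) le_rfl (fun _ _ _ _ h h' => add_le_add h h') (by
    intro c hc
    rw [mem_image] at hc
    obtain ⟨v0, _, rfl⟩ := hc
    set P := part lab (lab v0) with hP
    have hPpos : 0 < P.card := card_pos.2 ⟨v0, mem_part.2 rfl⟩
    have hsame : ∀ v ∈ P, (Cov G lab v ↔ Cov G lab v0) := by
      intro v hv
      unfold Cov
      rw [mem_part.1 hv]
    have h2 := two_edgesIn G P
    have h3 : (∑ v ∈ P, if ¬ Cov G lab v then (1 / 4 : ℝ) else 1 / 3) =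
        P.card * if ¬ Cov G lab v0 then (1 / 4 : ℝ) else 1 / 3 := by
      rw [sum_congr rfl fun v hv => by rw [hsame v hv], sum_const, nsmul_eq_mul]
    rw [h3, div_le_iff₀ (by exact_mod_cast hPpos)]
    rcases ee_bound G hG P.card P rfl with h4 | ⟨h4, h5, h6⟩
    · have h5 : 4 * (edgesIn G P : ℝ) ≤ (P.card : ℝ) ^ 2 := by
        have : 4 * edgesIn G P ≤ P.card ^ 2 := by omega
        exact_mod_cast this
      split_ifs
      · nlinarith [sq_nonneg (P.card : ℝ)]
      · nlinarith
    · have hc : Cov G lab v0 := ⟨h4, h6⟩
      have h7 : edgesIn G P = 3 := by omega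
      rw [if_neg (not_not.2 hc), h4, h7]
      norm_num)
  refine h1.trans (le_of_eq ?_)
  have h2 : ∀ v, (if ¬ Cov G lab v then (1 / 4 : ℝ) else 1 / 3) =
      1 / 3 - (if ¬ Cov G lab v then (1 / 12 : ℝ) else 0) := by
    intro v
    split_ifs <;> norm_num
  simp only [h2]
  rw [sum_sub_distrib, sum_const, ← sum_filter, sum_const, card_univ, Fintype.card_fin,
    nsmul_eq_mul, nsmul_eq_mul]
  ring

/-- The density of a partition into triangles. -/
theorem density_tri (lab : Fin n → ℕ) (h : ∀ v, Cov G lab v) : density G lab = (n : ℝ) / 3 := by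
  have h1 := density_sum G lab (fun _ => (1 / 3 : ℝ)) (fun a b => a = b) rfl
    (fun _ _ _ _ h h' => by rw [h, h']) (by
    intro c hc
    rw [mem_image] at hc
    obtain ⟨v0, _, rfl⟩ := hc
    obtain ⟨h4, h6⟩ := h v0
    have h2 := two_edgesIn G (part lab (lab v0))
    have h5 : ee G (part lab (lab v0)) = 6 := by
      unfold ee
      have h7 : ∀ x ∈ part lab (lab v0),
          ((part lab (lab v0)).filter fun y => G.Adj x y).card = 2 := by
        intro x hx
        have h8 : ((part lab (lab v0)).filter fun y => G.Adj x y) =
            (part lab (lab v0)).erase x := by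
          ext y
          rw [mem_filter, mem_erase]
          constructor
          · rintro ⟨h9, h10⟩
            exact ⟨h10.ne', h9⟩
          · rintro ⟨h9, h10⟩
            exact ⟨h10, h6 x hx y h10 h9.symm⟩
        rw [h8, card_erase_of_mem hx, h4]
      rw [sum_congr rfl h7, sum_const, h4]
      rfl
    have h7 : edgesIn G (part lab (lab v0)) = 3 := by omega
    rw [h7, h4, sum_const, h4]
    norm_num)
  rw [h1, sum_const, card_univ, Fintype.card_fin, nsmul_eq_mul]
  ring

/-- A map of order three along edges gives a partition into triangles. -/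
theorem exists_tri (τ : Fin n → Fin n) (h3 : ∀ v, τ (τ (τ v)) = v) (hadj : ∀ v, G.Adj v (τ v)) :
    ∃ lab : Fin n → ℕ, ∀ v, Cov G lab v := by
  set lab : Fin n → ℕ := fun v => min (v : ℕ) (min (τ v) (τ (τ v))) with hlab
  have h2 : ∀ v, G.Adj v (τ (τ v)) := by
    intro v
    have := hadj (τ (τ v))
    rw [h3] at this
    exact this.symm
  have hcases : ∀ v, ∃ w, (w = v ∨ w = τ v ∨ w = τ (τ v)) ∧ lab v = (w : ℕ) := by
    intro v
    have : lab v = (v : ℕ) ∨ lab v = (τ v : ℕ) ∨ lab v = (τ (τ v) : ℕ) := by
      simp only [hlab]
      omega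
    rcases this with h | h | h
    · exact ⟨_, Or.inl rfl, h⟩
    · exact ⟨_, Or.inr (Or.inl rfl), h⟩
    · exact ⟨_, Or.inr (Or.inr rfl), h⟩
  have hτ : ∀ v, lab (τ v) = lab v := by
    intro v
    simp only [hlab, h3]
    omega
  have hpart : ∀ v, part lab (lab v) = {v, τ v, τ (τ v)} := by
    intro v
    ext x
    rw [mem_part, mem_insert, mem_insert, mem_singleton]
    constructor
    · intro hx
      obtain ⟨w, hw, hw2⟩ := hcases v
      obtain ⟨w', hw', hw2'⟩ := hcases x
      have hww : w' = w := Fin.ext (by rw [← hw2, ← hw2', hx])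
      subst hww
      rcases hw with rfl | rfl | rfl
      · rcases hw' with h | h | h
        · exact Or.inl h.symm
        · right; right
          rw [h, h3]
        · right; left
          rw [h, h3]
      · rcases hw' with h | h | h
        · exact Or.inr (Or.inl h.symm)
        · left
          have := congrArg (fun z => τ (τ z)) h
          simp only [h3] at this
          exact this.symm
        · right; right
          have := congrArg τ h
          rw [h3] at this
          exact this.symm
      · rcases hw' with h | h | h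
        · exact Or.inr (Or.inr h.symm)
        · right; left
          have := congrArg (fun z => τ (τ z)) h
          simp only [h3] at this
          exact this.symm
        · left
          have := congrArg τ h
          rw [h3, h3] at this
          exact this.symm
    · rintro (rfl | rfl | rfl)
      · rfl
      · exact hτ v
      · rw [hτ, hτ]
  refine ⟨lab, fun v => ?_⟩
  unfold Cov
  rw [hpart]
  have n1 := (hadj v).ne
  have n2 := (h2 v).ne
  have n3 := (hadj (τ v)).ne
  refine ⟨card_eq_three.2 ⟨_, _, _, n1, n2, n3, rfl⟩, ?_⟩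
  intro x hx y hy hxy
  rw [mem_insert, mem_insert, mem_singleton] at hx hy
  rcases hx with rfl | rfl | rfl <;> rcases hy with rfl | rfl | rfl
  all_goals first
    | exact absurd rfl hxy
    | exact hadj _
    | exact (hadj _).symm
    | exact h2 _
    | exact (h2 _).symm

end density

end Pool.Agent.Q329.DP
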