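import Pool.Agent.H243R3.TP.Mu
import Pool.Agent.Q329.DP.Gen

/-!
# The graph of a formula

A vertex is `(r, l, i)`: one of three copies `r`, a literal position `l`, and a number `i < 10`: the
numbers below `4` are the cores of the ring of the variable, `4, ..., 7` the tips, `8` is the private
vertex of the position, and `9` is the clause vertex if `3 ∣ l` and a dummy otherwise.
-/

namespace Pool.Agent.Q329.DP

open Pool.Agent.H243R3.TP

abbrev Lb := ℕ × ℕ × ℕ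

/-- The next core on the ring. -/
def suc (f : ℕ → ℕ) (n : ℕ) (u : ℕ × ℕ) : ℕ × ℕ := if u.2 = 3 then (nxt f n u.1, 0) else (u.1, u.2 + 1)

/-- Adjacency inside a copy, in one direction. -/
def E1 (f : ℕ → ℕ) (n : ℕ) (sg : ℕ → Bool) (u v : ℕ × ℕ) : Prop :=
  (u.2 < 4 ∧ v = suc f n u) ∨ (u.2 < 4 ∧ v = (u.1, u.2 + 4)) ∨
    (4 ≤ v.2 ∧ v.2 < 8 ∧ u = suc f n (v.1, v.2 - 4)) ∨ (v.2 = 8 ∧ u = (v.1, off sg v.1)) ∨
    (v.2 = 9 ∧ v.1 = 3 * (u.1 / 3) ∧ (u.2 = off sg u.1 ∨ u.2 = 8))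

instance (f : ℕ → ℕ) (n : ℕ) (sg : ℕ → Bool) (u v : ℕ × ℕ) : Decidable (E1 f n sg u v) := by
  unfold E1; infer_instance

/-- Adjacency. -/
def Ad (f : ℕ → ℕ) (n : ℕ) (sg : ℕ → Bool) (a b : Lb) : Prop :=
  (a.1 = b.1 ∧ (E1 f n sg a.2 b.2 ∨ E1 f n sg b.2 a.2)) ∨
    (a.1 ≠ b.1 ∧ a.2 = b.2 ∧ 4 ≤ a.2.2 ∧ ¬ (a.2.2 = 9 ∧ a.2.1 % 3 = 0))

instance (f : ℕ → ℕ) (n : ℕ) (sg : ℕ → Bool) (a b : Lb) : Decidable (Ad f n sg a b) := by
  unfold Ad; infer_instance

/-- A position in a copy. -/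
def Vd (n : ℕ) (u : ℕ × ℕ) : Prop := u.1 < n ∧ u.2 < 10

variable {f : ℕ → ℕ} {n : ℕ} {sg : ℕ → Bool}

theorem suc_snd (u : ℕ × ℕ) : (suc f n u).2 = if u.2 = 3 then 0 else u.2 + 1 := by
  unfold suc
  split_ifs <;> rfl

theorem suc_lt {u : ℕ × ℕ} (h : u.2 < 4) : (suc f n u).2 < 4 := by
  rw [suc_snd]
  split_ifs <;> omega

theorem suc_mod {u : ℕ × ℕ} (_h : u.2 < 4) : (suc f n u).2 % 4 = (u.2 + 1) % 4 := by
  rw [suc_snd]
  split_ifs <;> omega

theorem suc_fst_lt {u : ℕ × ℕ} (h : u.1 < n) : (suc f n u).1 < n := by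
  unfold suc
  split_ifs
  · exact nxt_lt h
  · exact h

theorem suc_inj {u v : ℕ × ℕ} (hu : u.1 < n) (hv : v.1 < n) (h : suc f n u = suc f n v) :
    u = v := by
  obtain ⟨a, b⟩ := u
  obtain ⟨c, d⟩ := v
  unfold suc at h
  simp only at h hu hv
  split_ifs at h with h1 h2 h2
  · rw [Prod.mk.injEq] at h
    rw [h1, h2, nxt_inj hu hv h.1]
  · rw [Prod.mk.injEq] at h
    omega
  · rw [Prod.mk.injEq] at h
    omega
  · rw [Prod.mk.injEq] at h
    rw [h.1, Nat.add_right_cancel h.2]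

/-- The previous core. -/
def pr (f : ℕ → ℕ) (n : ℕ) (u : ℕ × ℕ) : ℕ × ℕ := if u.2 = 0 then (prv f n u.1, 3) else (u.1, u.2 - 1)

theorem pr_lt {u : ℕ × ℕ} (h : u.2 < 4) : (pr f n u).2 < 4 := by
  unfold pr
  split_ifs
  · norm_num
  · simp only
    omega

theorem pr_fst_lt {u : ℕ × ℕ} (h : u.1 < n) : (pr f n u).1 < n := by
  unfold pr
  split_ifs
  · exact prv_lt h
  · exact h

theorem suc_pr {u : ℕ × ℕ} (h : u.1 < n) (h2 : u.2 < 4) : suc f n (pr f n u) = u := by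
  obtain ⟨a, b⟩ := u
  simp only at h h2
  by_cases h3 : b = 0
  · subst h3
    have e1 : pr f n (a, 0) = (prv f n a, 3) := rfl
    have e2 : suc f n (prv f n a, 3) = (nxt f n (prv f n a), 0) := rfl
    rw [e1, e2, nxt_prv h]
  · have e1 : pr f n (a, b) = (a, b - 1) := if_neg h3
    have e2 : suc f n (a, b - 1) = (a, b - 1 + 1) := if_neg (by simp only; omega)
    rw [e1, e2, Prod.mk.injEq]
    exact ⟨rfl, by omega⟩

theorem pr_suc {u : ℕ × ℕ} (h : u.1 < n) (h2 : u.2 < 4) : pr f n (suc f n u) = u :=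
  suc_inj (pr_fst_lt (suc_fst_lt h)) h (suc_pr (suc_fst_lt h) (suc_lt h2))

theorem f_suc {u : ℕ × ℕ} (h : u.1 < n) : f (suc f n u).1 = f u.1 := by
  unfold suc
  split_ifs
  · exact f_nxt h
  · rfl

theorem off4 (l : ℕ) : 4 ≤ off sg l ∧ off sg l < 6 := by
  have := off_cases sg l
  omega

/-- Adjacency inside a copy. -/
def A2 (f : ℕ → ℕ) (n : ℕ) (sg : ℕ → Bool) (u v : ℕ × ℕ) : Prop := E1 f n sg u v ∨ E1 f n sg v u

theorem A2_comm {u v : ℕ × ℕ} : A2 f n sg u v ↔ A2 f n sg v u := by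
  unfold A2
  exact Or.comm

theorem A2_core {u v : ℕ × ℕ} (hu : u.2 < 4) : A2 f n sg u v ↔
    v = suc f n u ∨ (v.2 < 4 ∧ suc f n v = u) ∨ v = (u.1, u.2 + 4) ∨
      (4 ≤ v.2 ∧ v.2 < 8 ∧ suc f n (v.1, v.2 - 4) = u) := by
  unfold A2 E1
  have h1 := off4 (sg := sg) v.1
  constructor
  · rintro ((⟨_, h⟩ | ⟨_, h⟩ | ⟨h, h', h''⟩ | ⟨h, h'⟩ | ⟨h, h', h''⟩) |
      (⟨h, h'⟩ | ⟨h, h'⟩ | ⟨h, h', h''⟩ | ⟨h, h'⟩ | ⟨h, h', h''⟩))
    · exact Or.inl h
    · exact Or.inr (Or.inr (Or.inl h))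
    · exact Or.inr (Or.inr (Or.inr ⟨h, h', h''.symm⟩))
    · rw [h'] at hu
      simp only at hu
      omega
    · have := off4 (sg := sg) u.1
      omega
    · exact Or.inr (Or.inl ⟨h, h'.symm⟩)
    · rw [h'] at hu
      simp only at hu
      omega
    · omega
    · omega
    · omega
  · rintro (h | ⟨h, h'⟩ | h | ⟨h, h', h''⟩)
    · exact Or.inl (Or.inl ⟨hu, h⟩)
    · exact Or.inr (Or.inl ⟨h, h'.symm⟩)
    · exact Or.inl (Or.inr (Or.inl ⟨hu, h⟩))
    · exact Or.inl (Or.inr (Or.inr (Or.inl ⟨h, h', h''.symm⟩)))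

theorem A2_tip {u v : ℕ × ℕ} (hu : 4 ≤ u.2) (hu' : u.2 < 8) : A2 f n sg u v ↔
    v = (u.1, u.2 - 4) ∨ v = suc f n (u.1, u.2 - 4) ∨ (u.2 = off sg u.1 ∧ v = (u.1, 8)) ∨
      (u.2 = off sg u.1 ∧ v = (3 * (u.1 / 3), 9)) := by
  obtain ⟨l, i⟩ := u
  obtain ⟨m, j⟩ := v
  simp only at hu hu'
  unfold A2 E1
  simp only
  constructor
  · rintro ((⟨h, _⟩ | ⟨h, _⟩ | ⟨h, h', h''⟩ | ⟨h, h'⟩ | ⟨h, h', h''⟩) |
      (⟨h, h'⟩ | ⟨h, h'⟩ | ⟨_, _, h'⟩ | ⟨h, h'⟩ | ⟨h, h', h''⟩))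
    · omega
    · omega
    · have h2 : (suc f n (m, j - 4)).2 < 4 := suc_lt (by simp only; omega)
      rw [← h''] at h2
      simp only at h2
      omega
    · rw [Prod.mk.injEq] at h'
      right; right; left
      rw [h'.1, h, h'.2]
      exact ⟨rfl, rfl⟩
    · right; right; right
      refine ⟨?_, by rw [h, h']⟩
      rcases h'' with h2 | h2
      · exact h2
      · omega
    · have h2 : (suc f n (m, j)).2 < 4 := suc_lt h
      rw [← h'] at h2
      simp only at h2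
      omega
    · rw [Prod.mk.injEq] at h'
      left
      rw [h'.1, h'.2, Nat.add_sub_cancel]
    · exact Or.inr (Or.inl h')
    · omega
    · omega
  · rintro (h | h | ⟨h, h'⟩ | ⟨h, h'⟩)
    · rw [Prod.mk.injEq] at h
      right; right; left
      refine ⟨by omega, ?_⟩
      rw [Prod.mk.injEq]
      exact ⟨h.1.symm, by omega⟩
    · right; right; right; left
      exact ⟨hu, hu', h⟩
    · rw [Prod.mk.injEq] at h'
      left; right; right; right; left
      rw [h'.1, h'.2, h]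
      exact ⟨rfl, rfl⟩
    · rw [Prod.mk.injEq] at h'
      left; right; right; right; right
      exact ⟨h'.2, h'.1, Or.inl h⟩

theorem A2_eight {u v : ℕ × ℕ} (hu : u.2 = 8) : A2 f n sg u v ↔
    v = (u.1, off sg u.1) ∨ v = (3 * (u.1 / 3), 9) := by
  obtain ⟨l, i⟩ := u
  obtain ⟨m, j⟩ := v
  simp only at hu
  unfold A2 E1
  simp only
  constructor
  · rintro ((⟨h, _⟩ | ⟨h, _⟩ | ⟨h, h', h''⟩ | ⟨h, h'⟩ | ⟨h, h', h''⟩) |
      (⟨h, h'⟩ | ⟨h, h'⟩ | ⟨_, _, h'⟩ | ⟨h, h'⟩ | ⟨h, h', h''⟩))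
    · omega
    · omega
    · have h2 : (suc f n (m, j - 4)).2 < 4 := suc_lt (by simp only; omega)
      rw [← h''] at h2
      simp only at h2
      omega
    · rw [Prod.mk.injEq] at h'
      have := off4 (sg := sg) m
      omega
    · right
      rw [h, h']
    · have h2 : (suc f n (m, j)).2 < 4 := suc_lt h
      rw [← h'] at h2
      simp only at h2
      omega
    · rw [Prod.mk.injEq] at h'
      omega
    · omega
    · exact Or.inl h'
    · omega
  · rintro (h | h)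
    · right; right; right; right; left
      exact ⟨hu, h⟩
    · rw [Prod.mk.injEq] at h
      left; right; right; right; right
      exact ⟨h.2, h.1, Or.inr hu⟩

theorem A2_nine {u v : ℕ × ℕ} (hu : u.2 = 9) : A2 f n sg u v ↔
    u.1 = 3 * (v.1 / 3) ∧ (v.2 = off sg v.1 ∨ v.2 = 8) := by
  obtain ⟨l, i⟩ := u
  obtain ⟨m, j⟩ := v
  simp only at hu
  unfold A2 E1
  simp only
  have h1 := off4 (sg := sg) m
  have h1' := off4 (sg := sg) l
  constructor
  · rintro ((⟨h, _⟩ | ⟨h, _⟩ | ⟨h, h', h''⟩ | ⟨h, h'⟩ | ⟨h, h', h''⟩) |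
      (⟨h, h'⟩ | ⟨h, h'⟩ | ⟨_, _, h'⟩ | ⟨h, h'⟩ | ⟨h, h', h''⟩))
    · omega
    · omega
    · have h2 : (suc f n (m, j - 4)).2 < 4 := suc_lt (by simp only; omega)
      rw [← h''] at h2
      simp only at h2
      omega
    · rw [Prod.mk.injEq] at h'
      omega
    · omega
    · have h2 : (suc f n (m, j)).2 < 4 := suc_lt h
      rw [← h'] at h2
      simp only at h2
      omega
    · rw [Prod.mk.injEq] at h'
      omega
    · omega
    · omega
    · exact ⟨h', h''⟩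
  · rintro ⟨h, h'⟩
    right; right; right; right; right
    exact ⟨hu, h, h'⟩

theorem A2_irrefl {u : ℕ × ℕ} : ¬ A2 f n sg u u := by
  obtain ⟨l, i⟩ := u
  have h1 := off4 (sg := sg) l
  unfold A2
  rw [or_self]
  unfold E1
  simp only
  rintro (⟨h, h'⟩ | ⟨h, h'⟩ | ⟨h, h', h''⟩ | ⟨h, h'⟩ | ⟨h, h', h''⟩)
  · have h2 := suc_mod (f := f) (n := n) (u := (l, i)) h
    rw [← h'] at h2
    simp only at h2
    omega
  · rw [Prod.mk.injEq] at h'
    omega
  · have h2 : (suc f n (l, i - 4)).2 < 4 := suc_lt (by simp only; omega)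
    rw [← h''] at h2
    simp only at h2
    omega
  · rw [Prod.mk.injEq] at h'
    omega
  · omega

/-- Cores are only joined to cores and tips, and so on. -/
theorem no3 {u : ℕ × ℕ} (_hu : u.1 < n) (h2 : u.2 < 4) : suc f n (suc f n u) ≠ u ∧
    suc f n (suc f n (suc f n u)) ≠ u := by
  have m1 := suc_mod (f := f) (n := n) h2
  have l1 := suc_lt (f := f) (n := n) h2
  have m2 := suc_mod (f := f) (n := n) l1
  have l2 := suc_lt (f := f) (n := n) l1
  have m3 := suc_mod (f := f) (n := n) l2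
  constructor
  · intro h
    rw [h] at m2
    omega
  · intro h
    rw [h] at m3
    omega

theorem suc_ne {u : ℕ × ℕ} (h2 : u.2 < 4) : suc f n u ≠ u := by
  have m1 := suc_mod (f := f) (n := n) h2
  intro h
  rw [h] at m1
  omega

/-- Common neighbours of a core `u` and of the next core. -/
theorem common_cc {u w : ℕ × ℕ} (hu : u.1 < n) (h2 : u.2 < 4) (hw : w.1 < n)
    (h : A2 f n sg u w) (h' : A2 f n sg (suc f n u) w) : w = (u.1, u.2 + 4) := by
  rw [A2_core h2] at h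
  rw [A2_core (suc_lt h2)] at h'
  have n3 := no3 (f := f) hu h2
  rcases h with h | ⟨ha, h⟩ | h | ⟨ha, hb, h⟩
  · subst h
    rcases h' with h' | ⟨_, h'⟩ | h' | ⟨h', _⟩
    · exact absurd h'.symm (suc_ne (suc_lt h2))
    · exact absurd (suc_inj (suc_fst_lt hu) hu h') (suc_ne h2)
    · have l1 := suc_lt (f := f) (n := n) h2
      rw [h'] at l1
      simp only at l1
      omega
    · have l1 := suc_lt (f := f) (n := n) h2
      omega
  · rcases h' with h' | ⟨_, h'⟩ | h' | ⟨h', _⟩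
    · subst h'
      exact absurd h n3.2
    · have := suc_inj hw hu h'
      subst this
      exact absurd h (suc_ne ha)
    · rw [h'] at ha
      simp only at ha
      omega
    · omega
  · exact h
  · rcases h' with h' | ⟨h', _⟩ | h' | ⟨_, _, h'⟩
    · rw [h'] at ha
      have := suc_lt (f := f) (n := n) (suc_lt (f := f) (n := n) h2)
      omega
    · omega
    · rw [h'] at h
      have h3 : ((suc f n u).1, (suc f n u).2 + 4 - 4) = suc f n u := by
        rw [Nat.add_sub_cancel]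
      simp only at h
      rw [h3] at h
      exact absurd h n3.1
    · have h3 := suc_inj (u := (w.1, w.2 - 4)) hw hu h'
      rw [Prod.ext_iff] at h3
      simp only at h3
      refine Prod.ext h3.1 ?_
      simp only
      omega

end Pool.Agent.Q329.DP
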