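import Pool.Agent.Q329.DP.Gr

/-!
# Every edge of the graph of a formula is in one triangle
-/

namespace Pool.Agent.Q329.DP

open Pool.Agent.H243R3.TP

variable {f : ℕ → ℕ} {n : ℕ} {sg : ℕ → Bool}

theorem core_types {u w : ℕ × ℕ} (h2 : u.2 < 4) (h : A2 f n sg u w) : w.2 < 8 := by
  rw [A2_core h2] at h
  rcases h with h | ⟨ha, h⟩ | h | ⟨ha, hb, h⟩
  · have := suc_lt (f := f) (n := n) h2
    rw [← h] at this
    omega
  · omega
  · rw [h]
    simp only
    omega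
  · omega

/-- Common neighbours of a core and a tip. -/
theorem common_ct {u v w : ℕ × ℕ} (h2 : u.2 < 4) (hv : 4 ≤ v.2) (hv' : v.2 < 8)
    (huv : A2 f n sg u v) (h : A2 f n sg u w) (h' : A2 f n sg v w) :
    (u = (v.1, v.2 - 4) ∧ w = suc f n (v.1, v.2 - 4)) ∨
      (u = suc f n (v.1, v.2 - 4) ∧ w = (v.1, v.2 - 4)) := by
  have t1 := core_types h2 h
  have hvu := A2_comm.1 huv
  rw [A2_tip hv hv'] at hvu h'
  have hu : u = (v.1, v.2 - 4) ∨ u = suc f n (v.1, v.2 - 4) := by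
    rcases hvu with h3 | h3 | ⟨_, h3⟩ | ⟨_, h3⟩
    · exact Or.inl h3
    · exact Or.inr h3
    · rw [h3] at h2; simp at h2
    · rw [h3] at h2; simp at h2
  have hw : w = (v.1, v.2 - 4) ∨ w = suc f n (v.1, v.2 - 4) := by
    rcases h' with h3 | h3 | ⟨_, h3⟩ | ⟨_, h3⟩
    · exact Or.inl h3
    · exact Or.inr h3
    · rw [h3] at t1; simp at t1
    · rw [h3] at t1; simp at t1
  rcases hu with h3 | h3 <;> rcases hw with h4 | h4
  · rw [h3, h4] at h
    exact absurd h A2_irrefl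
  · exact Or.inl ⟨h3, h4⟩
  · exact Or.inr ⟨h3, h4⟩
  · rw [h3, h4] at h
    exact absurd h A2_irrefl

theorem common_t8 {u v w : ℕ × ℕ} (hu : 4 ≤ u.2) (hu' : u.2 < 8) (hv : v.2 = 8)
    (huv : A2 f n sg u v) (h : A2 f n sg u w) (h' : A2 f n sg v w) :
    w = (3 * (v.1 / 3), 9) := by
  rw [A2_tip hu hu'] at huv
  rw [A2_eight hv] at h'
  have h1 : v = (u.1, 8) ∧ u.2 = off sg u.1 := by
    rcases huv with h3 | h3 | ⟨h3, h4⟩ | ⟨_, h3⟩
    · rw [h3] at hv
      simp only at hv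
      omega
    · have := suc_lt (f := f) (n := n) (u := (u.1, u.2 - 4)) (by simp only; omega)
      rw [← h3] at this
      omega
    · exact ⟨h4, h3⟩
    · rw [h3] at hv
      simp at hv
  rcases h' with h3 | h3
  · rw [h1.1] at h3
    simp only at h3
    rw [← h1.2] at h3
    rw [h3] at h
    exact absurd h A2_irrefl
  · exact h3

theorem common_t9 {u v w : ℕ × ℕ} (hu : 4 ≤ u.2) (hu' : u.2 < 8) (hv : v.2 = 9)
    (h : A2 f n sg u w) (h' : A2 f n sg v w) : w = (u.1, 8) := by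
  rw [A2_tip hu hu'] at h
  rw [A2_nine hv] at h'
  have := off4 (sg := sg) w.1
  rcases h with h3 | h3 | ⟨_, h3⟩ | ⟨_, h3⟩
  · rw [h3] at h' this
    simp only at h' this
    omega
  · have := suc_lt (f := f) (n := n) (u := (u.1, u.2 - 4)) (by simp only; omega)
    rw [← h3] at this
    omega
  · exact h3
  · rw [h3] at h' this
    simp only at h' this
    omega

theorem common_89 {u v w : ℕ × ℕ} (hu : u.2 = 8) (hv : v.2 = 9)
    (h : A2 f n sg u w) (h' : A2 f n sg v w) : w = (u.1, off sg u.1) := by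
  rw [A2_eight hu] at h
  rw [A2_nine hv] at h'
  have := off4 (sg := sg) w.1
  rcases h with h3 | h3
  · exact h3
  · rw [h3] at h' this
    simp only at h' this
    omega

/-- Two adjacent vertices of a copy have at most one common neighbour in the copy. -/
theorem A2_uniq {u v w w' : ℕ × ℕ} (hu : Vd n u) (hv : Vd n v) (hw : Vd n w) (hw' : Vd n w')
    (huv : A2 f n sg u v) (h1 : A2 f n sg u w) (h2 : A2 f n sg v w) (h3 : A2 f n sg u w')
    (h4 : A2 f n sg v w') : w = w' := by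
  -- the pairs in one order
  have key : ∀ u v : ℕ × ℕ, Vd n u → Vd n v → u.2 < 4 ∧ v.2 < 8 ∨ u.2 < 8 ∧ 8 ≤ v.2 ∨ u.2 = 8 ∧ 9 ≤ v.2 →
      A2 f n sg u v → A2 f n sg u w → A2 f n sg v w → A2 f n sg u w' → A2 f n sg v w' → w = w' := by
    intro u v hu hv hty huv h1 h2 h3 h4
    have hv10 : v.2 < 10 := hv.2
    rcases Nat.lt_or_ge u.2 4 with a | a
    · have t := core_types a huv
      rcases Nat.lt_or_ge v.2 4 with b | b
      · have huv' := huv
        rw [A2_core a] at huv'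
        rcases huv' with h | ⟨_, h⟩ | h | ⟨h, _⟩
        · subst h
          rw [common_cc hu.1 a hw.1 h1 h2, common_cc hu.1 a hw'.1 h3 h4]
        · subst h
          rw [common_cc hv.1 b hw.1 h2 h1, common_cc hv.1 b hw'.1 h4 h3]
        · rw [h] at b
          simp only at b
          omega
        · omega
      · rcases common_ct a b t huv h1 h2 with ⟨e1, e2⟩ | ⟨e1, e2⟩ <;>
          rcases common_ct a b t huv h3 h4 with ⟨e3, e4⟩ | ⟨e3, e4⟩
        · rw [e2, e4]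
        · rw [e1] at e3
          exact absurd e3.symm (suc_ne (by simp only; omega))
        · rw [e1] at e3
          exact absurd e3 (suc_ne (by simp only; omega))
        · rw [e2, e4]
    · rcases hty with h | h | h
      · omega
      · rcases Nat.lt_or_ge v.2 9 with b | b
        · rw [common_t8 a h.1 (by omega) huv h1 h2, common_t8 a h.1 (by omega) huv h3 h4]
        · rw [common_t9 a h.1 (by omega) h1 h2, common_t9 a h.1 (by omega) h3 h4]
      · rw [common_89 h.1 (by omega) h1 h2, common_89 h.1 (by omega) h3 h4]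
  -- adjacent vertices have one of these types, in some order
  have hu10 := hu.2
  have hv10 := hv.2
  have htt : ¬ (4 ≤ u.2 ∧ u.2 < 8 ∧ 4 ≤ v.2 ∧ v.2 < 8) := by
    rintro ⟨a, b, c, d⟩
    rw [A2_tip a b] at huv
    rcases huv with h | h | ⟨_, h⟩ | ⟨_, h⟩
    · rw [h] at c d
      simp only at c d
      omega
    · have := suc_lt (f := f) (n := n) (u := (u.1, u.2 - 4)) (by simp only; omega)
      rw [← h] at this
      omega
    · rw [h] at d
      simp at d
    · rw [h] at d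
      simp at d
  have h88 : ¬ (u.2 = 8 ∧ v.2 = 8) := by
    rintro ⟨a, b⟩
    rw [A2_eight a] at huv
    have := off4 (sg := sg) u.1
    rcases huv with h | h
    · rw [h] at b
      simp only at b
      omega
    · rw [h] at b
      simp at b
  have h99 : ¬ (u.2 = 9 ∧ v.2 = 9) := by
    rintro ⟨a, b⟩
    rw [A2_nine a] at huv
    have := off4 (sg := sg) v.1
    omega
  rcases Nat.lt_or_ge u.2 v.2 with a | a
  · have : u.2 < 4 ∧ v.2 < 8 ∨ u.2 < 8 ∧ 8 ≤ v.2 ∨ u.2 = 8 ∧ 9 ≤ v.2 := by omega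
    exact key u v hu hv this huv h1 h2 h3 h4
  · have : v.2 < 4 ∧ u.2 < 8 ∨ v.2 < 8 ∧ 8 ≤ u.2 ∨ v.2 = 8 ∧ 9 ≤ u.2 := by omega
    exact key v u hv hu this (A2_comm.1 huv) h2 h1 h4 h3

/-- Valid labels. -/
def VL (n : ℕ) (a : Lb) : Prop := a.1 < 3 ∧ Vd n a.2

theorem Ad_comm {a b : Lb} : Ad f n sg a b ↔ Ad f n sg b a := by
  unfold Ad
  constructor
  · rintro (⟨h, h'⟩ | ⟨h, h', h''⟩)
    · exact Or.inl ⟨h.symm, h'.symm⟩
    · exact Or.inr ⟨Ne.symm h, h'.symm, by rw [← h']; exact h''⟩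
  · rintro (⟨h, h'⟩ | ⟨h, h', h''⟩)
    · exact Or.inl ⟨h.symm, h'.symm⟩
    · exact Or.inr ⟨Ne.symm h, h'.symm, by rw [← h']; exact h''⟩

theorem Ad_irrefl {a : Lb} : ¬ Ad f n sg a a := by
  unfold Ad
  rintro (⟨_, h'⟩ | ⟨h, _⟩)
  · exact A2_irrefl h'
  · exact h rfl

/-- A common neighbour of two adjacent vertices of a copy is in the copy. -/
theorem Ad_same {a b c : Lb} (hab : a.1 = b.1) (h : Ad f n sg a b) (h1 : Ad f n sg a c)
    (h2 : Ad f n sg b c) : A2 f n sg a.2 b.2 ∧ c.1 = a.1 ∧ A2 f n sg a.2 c.2 ∧ A2 f n sg b.2 c.2 := by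
  have h3 : A2 f n sg a.2 b.2 := by
    rcases h with ⟨_, h⟩ | ⟨h, _⟩
    · exact h
    · exact absurd hab h
  rcases h1 with ⟨h4, h5⟩ | ⟨h4, h5, _⟩
  · rcases h2 with ⟨h6, h7⟩ | ⟨h6, h7, _⟩
    · exact ⟨h3, h4.symm, h5, h7⟩
    · exact absurd (hab.symm.trans h4) h6
  · rcases h2 with ⟨h6, h7⟩ | ⟨h6, h7, _⟩
    · exact absurd (hab.trans h6) h4
    · rw [h5, h7] at h3
      exact absurd h3 A2_irrefl

theorem Ad_uniq {a b c d : Lb} (ha : VL n a) (hb : VL n b) (hc : VL n c) (hd : VL n d)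
    (hab : Ad f n sg a b) (h1 : Ad f n sg a c) (h2 : Ad f n sg b c) (h3 : Ad f n sg a d)
    (h4 : Ad f n sg b d) : c = d := by
  by_cases h : a.1 = b.1
  · obtain ⟨e1, e2, e3, e4⟩ := Ad_same h hab h1 h2
    obtain ⟨_, e5, e6, e7⟩ := Ad_same h hab h3 h4
    exact Prod.ext (e2.trans e5.symm) (A2_uniq ha.2 hb.2 hc.2 hd.2 e1 e3 e4 e6 e7)
  · have hab2 : a.2 = b.2 := by
      rcases hab with ⟨h5, _⟩ | ⟨_, h5, _⟩
      · exact absurd h5 h
      · exact h5
    have key : ∀ c : Lb, Ad f n sg a c → Ad f n sg b c → c.1 ≠ a.1 ∧ c.1 ≠ b.1 ∧ c.2 = a.2 := by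
      intro c h1 h2
      rcases h1 with ⟨h5, h6⟩ | ⟨h5, h6, _⟩
      · rcases h2 with ⟨h7, _⟩ | ⟨_, h7, _⟩
        · exact absurd (h5.trans h7.symm) h
        · rw [hab2, h7] at h6
          exact absurd h6 A2_irrefl
      · rcases h2 with ⟨_, h7⟩ | ⟨h7, _⟩
        · rw [← hab2, h6] at h7
          exact absurd h7 A2_irrefl
        · exact ⟨Ne.symm h5, Ne.symm h7, h6.symm⟩
    obtain ⟨c1, c2, c3⟩ := key c h1 h2
    obtain ⟨d1, d2, d3⟩ := key d h3 h4
    refine Prod.ext ?_ (c3.trans d3.symm)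
    have := ha.1
    have := hb.1
    have := hc.1
    have := hd.1
    omega

/-- The triangles at a core. -/
theorem core_tri {u y z : ℕ × ℕ} (hu : u.1 < n) (h4 : u.2 < 4) (hy : y.1 < n) (hz : z.1 < n)
    (h1 : A2 f n sg u y) (h2 : A2 f n sg u z) (h3 : A2 f n sg y z) :
    (y = suc f n u ∧ z = (u.1, u.2 + 4)) ∨ (z = suc f n u ∧ y = (u.1, u.2 + 4)) ∨
    (y.2 < 4 ∧ suc f n y = u ∧ z = (y.1, y.2 + 4)) ∨
    (z.2 < 4 ∧ suc f n z = u ∧ y = (z.1, z.2 + 4)) := by
  have h1' := h1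
  rw [A2_core h4] at h1'
  rcases h1' with h | ⟨ha, h⟩ | h | ⟨ha, hb, h⟩
  · subst h
    exact Or.inl ⟨rfl, common_cc hu h4 hz h2 h3⟩
  · subst h
    exact Or.inr (Or.inr (Or.inl ⟨ha, rfl, common_cc hy ha hz h3 h2⟩))
  · right; left
    have hy4 : 4 ≤ y.2 ∧ y.2 < 8 := by
      rw [h]
      simp only
      omega
    rcases common_ct h4 hy4.1 hy4.2 h1 h2 h3 with ⟨e1, e2⟩ | ⟨e1, e2⟩
    · rw [← e1] at e2
      exact ⟨e2, h⟩
    · exfalso
      rw [h] at e1
      simp only [Nat.add_sub_cancel] at e1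
      exact suc_ne h4 e1.symm
  · right; right; right
    rcases common_ct h4 ha hb h1 h2 h3 with ⟨e1, e2⟩ | ⟨e1, e2⟩
    · exfalso
      rw [← e1] at h
      exact suc_ne h4 h
    · rw [e2]
      refine ⟨by simp only; omega, h, ?_⟩
      refine Prod.ext rfl ?_
      simp only
      omega

/-- The triangles at a clause vertex. -/
theorem nine_tri {u y z : ℕ × ℕ} (h9 : u.2 = 9) (h1 : A2 f n sg u y) (h2 : A2 f n sg u z)
    (h3 : A2 f n sg y z) : (u.1 = 3 * (y.1 / 3) ∧ z.1 = y.1) ∧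
      ((y.2 = 8 ∧ z.2 = off sg y.1) ∨ (y.2 = off sg y.1 ∧ z.2 = 8)) := by
  rw [A2_nine h9] at h1 h2
  have o1 := off4 (sg := sg) y.1
  have o2 := off4 (sg := sg) z.1
  rcases h1 with ⟨h4, h5 | h5⟩
  · rw [A2_tip (by omega) (by omega)] at h3
    rcases h3 with h | h | ⟨_, h⟩ | ⟨_, h⟩
    · rw [h] at h2
      simp only at h2
      omega
    · have := suc_lt (f := f) (n := n) (u := (y.1, y.2 - 4)) (by simp only; omega)
      rw [← h] at this
      omega
    · rw [h]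
      exact ⟨⟨h4, rfl⟩, Or.inr ⟨h5, rfl⟩⟩
    · rw [h] at h2
      simp only at h2
      have := off4 (sg := sg) (3 * (y.1 / 3))
      omega
  · rw [A2_eight h5] at h3
    rcases h3 with h | h
    · rw [h]
      exact ⟨⟨h4, rfl⟩, Or.inl ⟨h5, rfl⟩⟩
    · rw [h] at h2
      simp only at h2
      have := off4 (sg := sg) (3 * (y.1 / 3))
      omega

end Pool.Agent.Q329.DP
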