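import Pool.Agent.Q329.DP.Red
import Pool.Agent.H243R3.PCP.Main
import Pool.Agent.H569R2.Approx

/-!
# Dense Graph Partition has no polynomial-time approximation scheme unless P = NP
-/

namespace Pool.Agent.Q329.DP

open Pool.Agent.NPC Pool.Agent.H243R3.TP Pool.Agent.H243R3.PCP

/-- The constant of the test. -/
def KK : ℕ := 91 * NPC.DP.K0 * (1 + Bd) + 1

/-- The test. -/
def tst (A : List Bool → List Bool) (φ : List Clause) : Bool :=
  decide (KK * unc (Mf φ) (List.range (Mf φ).length)
    ((unbits (List ℕ) (A (bits (Mf φ)))).getD []) ≤ (Mf φ).length)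

theorem poly_tst {A : List Bool → List Bool} (hA : PolyTime A) :
    Poly (fun φ : List Clause => tst A φ) := by
  unfold tst
  have h1 : Poly (fun φ : List Clause => Mf φ) := poly_Mf Poly.id
  have h2 := Poly.range_length h1
  have h3 := (H569R2.poly_of_polyTime hA).comp (H569R2.poly_bits.comp h1)
  have h4 : Poly (fun φ : List Clause => (unbits (List ℕ) (A (bits (Mf φ)))).getD []) :=
    Poly.optGetD (poly_unbits.comp h3) (NPC.Poly.const _)
  have h5 := poly_unc h1 h2 h4
  fun_prop

theorem length_Mf (φ : List Clause) : (Mf φ).length = (vs φ).length := by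
  unfold Mf
  rw [List.length_map]

open Classical in
theorem tst_iff {A : List Bool → List Bool} (φ : List Clause) (lab : Fin (vs φ).length → ℕ)
    (h : A (bits (R671.adjMatrix (Gf φ))) = bits (List.ofFn lab)) :
    tst A φ = true ↔
      KK * (Finset.univ.filter fun v => ¬ Cov (Gf φ) lab v).card ≤ (vs φ).length := by
  unfold tst
  rw [decide_eq_true_iff, length_Mf, ← adjMatrix_Gf, h, unbits_bits, Option.getD_some, unc_eq]

/-- A good approximation algorithm decides all problems in NP. -/
theorem p_eq_np {A : List Bool → List Bool} (hA : Approx (1 / (4 * KK : ℝ)) A) (L : Set (List Bool))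
    (hL : InNP L) : InP L := by
  classical
  obtain ⟨hAp, hAs⟩ := hA
  obtain ⟨V, p, hV, hVL⟩ := hL
  obtain ⟨red, ext, hred, _, hspec⟩ := NPC.DP.pcp hV p
  have hg : Poly (fun x : List Bool => tst A (red x)) := (poly_tst hAp).comp hred
  refine ⟨_, polyTime_of_poly hg, fun x => ?_⟩
  obtain ⟨⟨hne, hocc⟩, hyes, hno⟩ := hspec x
  set φ := red x with hφ
  obtain ⟨lab, hlab, hopt⟩ := hAs (vs φ).length (Gf φ)
  have hK : (0 : ℝ) < KK := by
    unfold KK
    positivity
  rw [List.cons.injEq, and_iff_left rfl, tst_iff φ lab hlab, hVL]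
  constructor
  · intro hw
    obtain ⟨B, _, hB⟩ := hyes hw
    have hsat : ∀ c ∈ φ, ClauseSat B c := by
      intro c hc
      unfold unsat at hB
      rw [List.countP_eq_zero] at hB
      have := hB c hc
      simpa using this
    obtain ⟨lab', hlab'⟩ := complete φ B hsat
    have h1 := hopt lab'
    rw [density_tri (Gf φ) lab' hlab'] at h1
    have h2 := density_le (Gf φ) (DF_Gf φ) lab
    have h3 : ((Finset.univ.filter fun v => ¬ Cov (Gf φ) lab v).card : ℝ) / 12 ≤
        1 / (4 * KK) * (((vs φ).length : ℝ) / 3) := by linarith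
    have h4 : (KK : ℝ) * ((Finset.univ.filter fun v => ¬ Cov (Gf φ) lab v).card : ℝ) ≤
        ((vs φ).length : ℝ) := by
      have h5 : 1 / (4 * (KK : ℝ)) * (((vs φ).length : ℝ) / 3) =
          ((vs φ).length : ℝ) / KK / 12 := by
        field_simp
        ring
      rw [h5] at h3
      have h6 : ((Finset.univ.filter fun v => ¬ Cov (Gf φ) lab v).card : ℝ) ≤
          ((vs φ).length : ℝ) / KK := by linarith
      rw [le_div_iff₀ hK] at h6
      linarith
    exact_mod_cast h4
  · intro h
    obtain ⟨B, hB⟩ := sound hocc lab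
    have h1 : NPC.DP.K0 * unsat φ B < φ.length := by
      have hpos : 0 < φ.length := List.length_pos_of_ne_nil hne
      have h := h.trans (length_vs φ).le
      have h2 : 91 * (NPC.DP.K0 * unsat φ B) ≤ 90 * φ.length := by
        calc 91 * (NPC.DP.K0 * unsat φ B)
            ≤ 91 * (NPC.DP.K0 * ((1 + Bd) *
              (Finset.univ.filter fun v => ¬ Cov (Gf φ) lab v).card)) :=
              Nat.mul_le_mul_left _ (Nat.mul_le_mul_left _ hB)
          _ ≤ KK * (Finset.univ.filter fun v => ¬ Cov (Gf φ) lab v).card := by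
              unfold KK
              nlinarith [Nat.zero_le (Finset.univ.filter fun v => ¬ Cov (Gf φ) lab v).card]
          _ ≤ 90 * φ.length := h
      omega
    have h2 := hno B h1
    exact ⟨_, h2⟩

end Pool.Agent.Q329.DP
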