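import Pool.Agent.Q329.DP.Sound
import Pool.Agent.H671R2.PolyAuto
import Pool.Agent.H243R3.TP.PolyB

/-!
# The graph of a formula as an input, and the test
-/

namespace Pool.Agent.Q329.DP

open Pool.Agent.NPC Pool.Agent.H243R3.TP

/-- The vertices. -/
def vs (φ : List Clause) : List Lb := (List.range 3) ×ˢ ((List.range (np φ)) ×ˢ (List.range 10))

/-- Adjacency of labels. -/
def ad (φ : List Clause) (a b : Lb) : Bool := decide (Ad (vr φ) (np φ) (sn φ) a b)

theorem ad_symm (φ : List Clause) (a b : Lb) : ad φ a b = ad φ b a := by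
  unfold ad
  exact decide_eq_decide.2 Ad_comm

theorem ad_irrefl (φ : List Clause) (a : Lb) : ad φ a a = false := by
  unfold ad
  exact decide_eq_false Ad_irrefl

/-- The graph. -/
def Gf (φ : List Clause) : SimpleGraph (Fin (vs φ).length) :=
  R671.listGraph (vs φ) (ad φ) (ad_symm φ) (ad_irrefl φ)

/-- Its adjacency matrix. -/
def Mf (φ : List Clause) : List (List Bool) := (vs φ).map fun u => (vs φ).map fun w => ad φ u w

theorem adjMatrix_Gf (φ : List Clause) : R671.adjMatrix (Gf φ) = Mf φ :=
  R671.adjMatrix_listGraph _ _ _ _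

theorem length_vs (φ : List Clause) : (vs φ).length = 90 * φ.length := by
  unfold vs np
  rw [List.length_product, List.length_product, List.length_range, List.length_range,
    List.length_range]
  ring

theorem mem_vs {φ : List Clause} {a : Lb} : a ∈ vs φ ↔ VL (np φ) a := by
  obtain ⟨r, l, i⟩ := a
  unfold vs VL Vd
  rw [List.mem_product, List.mem_product, List.mem_range, List.mem_range, List.mem_range]

theorem nodup_vs (φ : List Clause) : (vs φ).Nodup := by
  unfold vs
  exact List.nodup_range.product (List.nodup_range.product List.nodup_range)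

/-- The label of a vertex. -/
def lb (φ : List Clause) (k : Fin (vs φ).length) : Lb := (vs φ)[k]

theorem lb_inj {φ : List Clause} {k k' : Fin (vs φ).length} (h : lb φ k = lb φ k') : k = k' :=
  Fin.ext ((List.Nodup.getElem_inj_iff (nodup_vs φ)).1 h)

theorem lb_VL {φ : List Clause} (k : Fin (vs φ).length) : VL (np φ) (lb φ k) :=
  mem_vs.1 (List.getElem_mem _)

theorem exists_lb {φ : List Clause} {a : Lb} (h : VL (np φ) a) : ∃ k, lb φ k = a := by
  obtain ⟨i, hi, h2⟩ := List.getElem_of_mem (mem_vs.2 h)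
  exact ⟨⟨i, hi⟩, h2⟩

theorem Gf_adj {φ : List Clause} {k k' : Fin (vs φ).length} :
    (Gf φ).Adj k k' ↔ Ad (vr φ) (np φ) (sn φ) (lb φ k) (lb φ k') := by
  unfold Gf R671.listGraph ad lb
  exact decide_eq_true_iff

theorem DF_Gf (φ : List Clause) : DF (Gf φ) := by
  intro a b c d hab hac hbc had hbd
  rw [Gf_adj] at hab hac hbc had hbd
  exact lb_inj (Ad_uniq (lb_VL a) (lb_VL b) (lb_VL c) (lb_VL d) hab hac hbc had hbd)

/-- Satisfiable formulas give graphs with a partition into triangles. -/
theorem complete (φ : List Clause) (A : List ℕ) (hA : ∀ c ∈ φ, ClauseSat A c) :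
    ∃ lab : Fin (vs φ).length → ℕ, ∀ v, Cov (Gf φ) lab v := by
  classical
  have h1 : ∀ j, ∃ k < 3, j < φ.length → (vr φ (3 * j + k) ∈ A ↔ sn φ (3 * j + k) = true) := by
    intro j
    by_cases hj : j < φ.length
    · have h2 : ClauseSat A (φ.getD j ((0, false), (0, false), (0, false))) := by
        apply hA
        rw [List.getD_eq_getElem _ _ hj]
        exact List.getElem_mem _
      obtain ⟨k, hk, h3⟩ := (clauseSat_iff hj).1 h2
      exact ⟨k, hk, fun _ => h3⟩
    · exact ⟨0, by norm_num, fun h => absurd h hj⟩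
  choose ch hch1 hch2 using h1
  set al : ℕ → Bool := fun x => decide (x ∈ A) with hal
  have hG : Good (vr φ) (np φ) (sn φ) al ch := by
    refine ⟨np_mod φ, hch1, ?_⟩
    intro l hl hc
    have hj : l / 3 < φ.length := by unfold np at hl; omega
    have h2 := hch2 (l / 3) hj
    unfold Chn at hc
    rw [← hc] at h2
    unfold On off
    simp only [hal]
    by_cases hs : sn φ l = true
    · have h3 := h2.2 hs
      rw [if_pos hs]
      simp [h3]
    · have h3 : ¬ vr φ l ∈ A := fun h => hs (h2.1 h)
      rw [if_neg hs]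
      simp [h3]
  have h2 : ∀ k : Fin (vs φ).length, ∃ k', lb φ k' = tau (vr φ) (np φ) (sn φ) al ch (lb φ k) :=
    fun k => exists_lb (tau_spec hG (lb_VL k)).1
  choose τ hτ using h2
  refine exists_tri (Gf φ) τ (fun v => lb_inj ?_) (fun v => ?_)
  · rw [hτ, hτ, hτ]
    exact (tau_spec hG (lb_VL v)).2.1
  · rw [Gf_adj, hτ]
    exact (tau_spec hG (lb_VL v)).2.2

open Classical in
/-- A partition with few uncovered vertices gives a good assignment. -/
theorem sound {φ : List Clause} {B : ℕ} (hB : ∀ x, (occ φ).count x ≤ B)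
    (lab : Fin (vs φ).length → ℕ) :
    ∃ A : List ℕ, (φ.countP fun c => !(decide (ClauseSat A c))) ≤
      (1 + B) * (Finset.univ.filter fun v => ¬ Cov (Gf φ) lab v).card := by
  set L : Lb → ℕ := fun a => if h : ∃ k, lb φ k = a then lab h.choose else 0 with hL
  have hLk : ∀ k, L (lb φ k) = lab k := by
    intro k
    have h : ∃ k', lb φ k' = lb φ k := ⟨k, rfl⟩
    simp only [hL]
    rw [dif_pos h]
    congr 1
    exact lb_inj h.choose_spec
  set U : Finset Lb := (Finset.univ.filter fun v => ¬ Cov (Gf φ) lab v).image (lb φ) with hU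
  obtain ⟨A, hA⟩ := exists_few hB L U (by
    intro u hu hu10 hnot
    obtain ⟨k, hk⟩ := exists_lb (φ := φ) (a := (0, u)) ⟨by norm_num, hu, hu10⟩
    have hcov : Cov (Gf φ) lab k := by
      by_contra hc
      apply hnot
      rw [hU, Finset.mem_image]
      exact ⟨k, by simpa using hc, hk⟩
    obtain ⟨h3, hadj⟩ := hcov
    have hkm : k ∈ part lab (lab k) := mem_part.2 rfl
    have h2 : ((part lab (lab k)).erase k).card = 2 := by
      rw [Finset.card_erase_of_mem hkm, h3]
    obtain ⟨b, c, hbc, he⟩ := Finset.card_eq_two.1 h2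
    have hb : b ∈ (part lab (lab k)).erase k := by rw [he]; simp
    have hc : c ∈ (part lab (lab k)).erase k := by rw [he]; simp
    rw [Finset.mem_erase] at hb hc
    rw [← hk]
    refine ⟨lb φ b, lb φ c, lb_VL b, lb_VL c, Gf_adj.1 (hadj k hkm b hb.2 hb.1.symm),
      Gf_adj.1 (hadj k hkm c hc.2 hc.1.symm), Gf_adj.1 (hadj b hb.2 c hc.2 hbc), ?_, ?_, ?_⟩
    · rw [hLk, hLk]; exact mem_part.1 hb.2
    · rw [hLk, hLk]; exact mem_part.1 hc.2
    · intro d hd hd2
      obtain ⟨k', hk'⟩ := exists_lb hd
      rw [← hk', hLk, hLk] at hd2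
      by_cases hkk : k' = k
      · left; rw [← hk', hkk]
      · have h4 : k' ∈ (part lab (lab k)).erase k := Finset.mem_erase.2 ⟨hkk, mem_part.2 hd2⟩
        rw [he, Finset.mem_insert, Finset.mem_singleton] at h4
        rcases h4 with h4 | h4
        · right; left; rw [← hk', h4]
        · right; right; rw [← hk', h4])
  refine ⟨A, hA.trans (Nat.mul_le_mul_left _ Finset.card_image_le)⟩

/-! ### The test -/

/-- The class of a vertex. -/
def cls (V l : List ℕ) (v : ℕ) : List ℕ := V.filter fun u => decide (l.getD u 0 = l.getD v 0)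

/-- Whether the class of a vertex is a triangle. -/
def covB (M : List (List Bool)) (V l : List ℕ) (v : ℕ) : Bool :=
  decide ((cls V l v).length = 3) && (cls V l v).all fun x => (cls V l v).all fun y =>
    decide (x = y) || (M.getD x []).getD y false

/-- The number of uncovered vertices. -/
def unc (M : List (List Bool)) (V l : List ℕ) : ℕ := (V.filter fun v => !(covB M V l v)).length

theorem getD_adjM {n : ℕ} (G : SimpleGraph (Fin n)) (i j : Fin n) :
    ((R671.adjMatrix G).getD i []).getD j false = true ↔ G.Adj i j := by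
  unfold R671.adjMatrix
  simp [List.getD_eq_getElem?_getD]

theorem getD_ofFn {n : ℕ} (lab : Fin n → ℕ) (i : Fin n) : (List.ofFn lab).getD i 0 = lab i := by
  simp [List.getD_eq_getElem?_getD]

open Classical in
theorem covB_iff {n : ℕ} (G : SimpleGraph (Fin n)) (lab : Fin n → ℕ) (v : Fin n) :
    covB (R671.adjMatrix G) (List.range n) (List.ofFn lab) v = true ↔ Cov G lab v := by
  have hmem : ∀ u : ℕ, u ∈ cls (List.range n) (List.ofFn lab) v ↔
      ∃ h : u < n, lab ⟨u, h⟩ = lab v := by
    intro u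
    unfold cls
    rw [List.mem_filter, List.mem_range, decide_eq_true_iff, getD_ofFn]
    constructor
    · rintro ⟨h1, h2⟩
      exact ⟨h1, by rw [← h2, ← getD_ofFn lab ⟨u, h1⟩]⟩
    · rintro ⟨h1, h2⟩
      exact ⟨h1, by rw [← h2, ← getD_ofFn lab ⟨u, h1⟩]⟩
  have hlen : (cls (List.range n) (List.ofFn lab) v).length = (part lab (lab v)).card := by
    rw [← List.toFinset_card_of_nodup (by
      unfold cls
      exact List.nodup_range.filter _), ← Finset.card_map Fin.valEmbedding]
    congr 1
    ext u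
    rw [List.mem_toFinset, hmem, Finset.mem_map]
    constructor
    · rintro ⟨h1, h2⟩
      exact ⟨⟨u, h1⟩, mem_part.2 h2, rfl⟩
    · rintro ⟨w, hw, rfl⟩
      exact ⟨w.2, mem_part.1 hw⟩
  unfold covB Cov
  rw [Bool.and_eq_true, decide_eq_true_iff, hlen, List.all_eq_true]
  refine and_congr Iff.rfl ?_
  constructor
  · intro h x hx y hy hxy
    have h1 := h x ((hmem x).2 ⟨x.2, mem_part.1 hx⟩)
    rw [List.all_eq_true] at h1
    have h2 := h1 y ((hmem y).2 ⟨y.2, mem_part.1 hy⟩)
    rw [Bool.or_eq_true, decide_eq_true_iff, getD_adjM] at h2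
    rcases h2 with h2 | h2
    · exact absurd (Fin.ext h2) hxy
    · exact h2
  · intro h x hx
    rw [List.all_eq_true]
    intro y hy
    obtain ⟨h1, h2⟩ := (hmem x).1 hx
    obtain ⟨h3, h4⟩ := (hmem y).1 hy
    rw [Bool.or_eq_true, decide_eq_true_iff]
    by_cases hxy : x = y
    · exact Or.inl hxy
    · right
      exact (getD_adjM G ⟨x, h1⟩ ⟨y, h3⟩).2 (h _ (mem_part.2 h2) _ (mem_part.2 h4)
        fun h5 => hxy (congrArg Fin.val h5))

open Classical in
theorem unc_eq {n : ℕ} (G : SimpleGraph (Fin n)) (lab : Fin n → ℕ) :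
    unc (R671.adjMatrix G) (List.range n) (List.ofFn lab) =
      (Finset.univ.filter fun v => ¬ Cov G lab v).card := by
  unfold unc
  rw [← List.toFinset_card_of_nodup (List.nodup_range.filter _),
    ← Finset.card_map Fin.valEmbedding (s := Finset.univ.filter fun v => ¬ Cov G lab v)]
  congr 1
  ext u
  rw [List.mem_toFinset, List.mem_filter, List.mem_range, Finset.mem_map]
  constructor
  · rintro ⟨h1, h2⟩
    refine ⟨⟨u, h1⟩, ?_, rfl⟩
    rw [Finset.mem_filter, ← covB_iff G lab ⟨u, h1⟩]
    exact ⟨Finset.mem_univ _, by simpa using h2⟩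
  · rintro ⟨w, hw, rfl⟩
    rw [Finset.mem_filter, ← covB_iff G lab w] at hw
    exact ⟨w.2, by simpa using hw.2⟩

/-! ### Polynomial time -/

variable {α : Type} [TEnc α]

theorem poly_suc {F : α → List Clause} {u : α → ℕ × ℕ} (hF : Poly F) (hu : Poly u) :
    Poly (fun a => suc (vr (F a)) (np (F a)) (u a)) := by
  unfold suc
  have h1 := NPC.TP.poly_nxt hF (Poly.fst hu)
  fun_prop

theorem poly_E1 {F : α → List Clause} {u v : α → ℕ × ℕ} (hF : Poly F) (hu : Poly u)
    (hv : Poly v) :
    Poly (fun a => decide (E1 (vr (F a)) (np (F a)) (sn (F a)) (u a) (v a))) := by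
  have h1 := poly_suc hF hu
  have h2 := poly_suc (u := fun a => ((v a).1, (v a).2 - 4)) hF (by fun_prop)
  have h3 := NPC.TP.poly_off hF (Poly.fst hv)
  have h4 := NPC.TP.poly_off hF (Poly.fst hu)
  unfold E1
  fun_prop

theorem poly_ad {F : α → List Clause} {a b : α → Lb} (hF : Poly F) (ha : Poly a) (hb : Poly b) :
    Poly (fun x => ad (F x) (a x) (b x)) := by
  unfold ad
  have h1 := poly_E1 hF (Poly.snd ha) (Poly.snd hb)
  have h2 := poly_E1 hF (Poly.snd hb) (Poly.snd ha)
  unfold Ad
  fun_prop

theorem poly_vs {F : α → List Clause} (hF : Poly F) : Poly (fun a => vs (F a)) := by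
  unfold vs
  have h1 := (NPC.TP.upoly_np hF).range
  fun_prop

attribute [local fun_prop] poly_ad poly_vs

theorem poly_Mf {F : α → List Clause} (hF : Poly F) : Poly (fun a => Mf (F a)) := by
  unfold Mf
  fun_prop

theorem poly_cls {V l : α → List ℕ} {v : α → ℕ} (hV : Poly V) (hl : Poly l) (hv : Poly v) :
    Poly (fun a => cls (V a) (l a) (v a)) := by
  unfold cls
  fun_prop

attribute [local fun_prop] poly_cls

theorem poly_covB {M : α → List (List Bool)} {V l : α → List ℕ} {v : α → ℕ} (hM : Poly M)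
    (hV : Poly V) (hl : Poly l) (hv : Poly v) :
    Poly (fun a => covB (M a) (V a) (l a) (v a)) := by
  unfold covB
  fun_prop

attribute [local fun_prop] poly_covB

theorem poly_unc {M : α → List (List Bool)} {V l : α → List ℕ} (hM : Poly M)
    (hV : Poly V) (hl : Poly l) : Poly (fun a => unc (M a) (V a) (l a)) := by
  unfold unc
  fun_prop

end Pool.Agent.Q329.DP
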