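import Pool.Agent.Q329.DP.Comp
import Pool.Agent.H243R3.TP.Form

/-!
# Soundness: reading off an assignment from a partition
-/

namespace Pool.Agent.Q329.DP

open Pool.Agent.H243R3.TP

variable {f : ℕ → ℕ} {n : ℕ} {sg : ℕ → Bool} {L : Lb → ℕ}

/-- The class of `a` is a triangle. -/
def CL (f : ℕ → ℕ) (n : ℕ) (sg : ℕ → Bool) (L : Lb → ℕ) (a : Lb) : Prop :=
  ∃ b c : Lb, VL n b ∧ VL n c ∧ Ad f n sg a b ∧ Ad f n sg a c ∧ Ad f n sg b c ∧ L b = L a ∧
    L c = L a ∧ ∀ d, VL n d → L d = L a → d = a ∨ d = b ∨ d = c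

/-- The core `u`, the next core and the tip between them are in one class. -/
def OnL (f : ℕ → ℕ) (n : ℕ) (L : Lb → ℕ) (u : ℕ × ℕ) : Prop :=
  L (0, suc f n u) = L (0, u) ∧ L (0, (u.1, u.2 + 4)) = L (0, u)

theorem VL_core {u : ℕ × ℕ} (hu : u.1 < n) (h4 : u.2 < 4) : VL n (0, u) :=
  ⟨by norm_num, hu, by simp only; omega⟩

theorem VL_tip {u : ℕ × ℕ} (hu : u.1 < n) (h4 : u.2 < 4) : VL n (0, (u.1, u.2 + 4)) :=
  ⟨by norm_num, hu, by simp only; omega⟩

/-- A triangle at a vertex of copy `0`. -/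
theorem CL_copy {u : ℕ × ℕ} (h4 : u.2 < 4 ∨ (u.2 = 9 ∧ u.1 % 3 = 0)) (hc : CL f n sg L (0, u)) :
    ∃ y z : ℕ × ℕ, Vd n y ∧ Vd n z ∧ A2 f n sg u y ∧ A2 f n sg u z ∧ A2 f n sg y z ∧
      L (0, y) = L (0, u) ∧ L (0, z) = L (0, u) ∧
      ∀ d, VL n d → L d = L (0, u) → d = (0, u) ∨ d = (0, y) ∨ d = (0, z) := by
  obtain ⟨⟨r, y⟩, ⟨s, z⟩, hy, hz, h1, h2, h3, h5, h6, h7⟩ := hc
  have key : ∀ (r : ℕ) (y : ℕ × ℕ), Ad f n sg (0, u) (r, y) → r = 0 ∧ A2 f n sg u y := by
    intro r y h
    rcases h with ⟨h8, h9⟩ | ⟨_, h9, h10, h11⟩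
    · exact ⟨h8.symm, h9⟩
    · simp only at h10 h11
      omega
  obtain ⟨rfl, k1⟩ := key r y h1
  obtain ⟨rfl, k2⟩ := key s z h2
  have k3 : A2 f n sg y z := by
    rcases h3 with ⟨_, h9⟩ | ⟨h9, _⟩
    · exact h9
    · exact absurd rfl h9
  exact ⟨y, z, hy.2, hz.2, k1, k2, k3, h5, h6, h7⟩

/-- A covered core is on the triangle of itself, or of the previous core, and not both. -/
theorem cov_core {u : ℕ × ℕ} (hu : u.1 < n) (h4 : u.2 < 4) (hc : CL f n sg L (0, u)) :
    OnL f n L u ↔ ¬ OnL f n L (pr f n u) := by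
  have hp4 := pr_lt (f := f) (n := n) h4
  have hpn := pr_fst_lt (f := f) hu
  have hsp := suc_pr (f := f) hu h4
  obtain ⟨y, z, hy, hz, h1, h2, h3, h5, h6, h7⟩ := CL_copy (Or.inl h4) hc
  -- three distinct vertices
  have d1 : suc f n u ≠ u := suc_ne h4
  have d2 : pr f n u ≠ u := by
    intro h
    rw [h] at hsp
    exact d1 hsp
  have d3 : pr f n u ≠ suc f n u := by
    intro h
    rw [h] at hsp
    exact (no3 hu h4).1 hsp
  have hs4 := suc_lt (f := f) (n := n) h4
  rcases core_tri hu h4 hy.1 hz.1 h1 h2 h3 with ⟨e1, e2⟩ | ⟨e1, e2⟩ | ⟨e0, e1, e2⟩ | ⟨e0, e1, e2⟩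
  · subst e1 e2
    have hon : OnL f n L u := ⟨h5, h6⟩
    refine ⟨fun _ hoff => ?_, fun _ => hon⟩
    have h8 := hoff.1
    rw [hsp] at h8
    rcases h7 (0, pr f n u) (VL_core hpn hp4) h8.symm with h | h | h
    · exact d2 (congrArg Prod.snd h)
    · exact d3 (congrArg Prod.snd h)
    · have := congrArg (fun a : Lb => a.2.2) h
      simp only at this
      omega
  · subst e1 e2
    have hon : OnL f n L u := ⟨h6, h5⟩
    refine ⟨fun _ hoff => ?_, fun _ => hon⟩
    have h8 := hoff.1
    rw [hsp] at h8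
    rcases h7 (0, pr f n u) (VL_core hpn hp4) h8.symm with h | h | h
    · exact d2 (congrArg Prod.snd h)
    · have := congrArg (fun a : Lb => a.2.2) h
      simp only at this
      omega
    · exact d3 (congrArg Prod.snd h)
  · have hy' : y = pr f n u := suc_inj hy.1 hpn (e1.trans hsp.symm)
    subst hy' e2
    have hoff : OnL f n L (pr f n u) := by
      refine ⟨?_, ?_⟩
      · rw [hsp]; exact h5.symm
      · rw [h6]; exact h5.symm
    refine ⟨fun hon => ?_, fun h => absurd hoff h⟩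
    exfalso
    rcases h7 (0, suc f n u) (VL_core (suc_fst_lt hu) hs4) hon.1 with h | h | h
    · exact d1 (congrArg Prod.snd h)
    · exact d3 (congrArg Prod.snd h).symm
    · have := congrArg (fun a : Lb => a.2.2) h
      simp only at this
      omega
  · have hz' : z = pr f n u := suc_inj hz.1 hpn (e1.trans hsp.symm)
    subst hz' e2
    have hoff : OnL f n L (pr f n u) := by
      refine ⟨?_, ?_⟩
      · rw [hsp]; exact h6.symm
      · rw [h5]; exact h6.symm
    refine ⟨fun hon => ?_, fun h => absurd hoff h⟩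
    exfalso
    rcases h7 (0, suc f n u) (VL_core (suc_fst_lt hu) hs4) hon.1 with h | h | h
    · exact d1 (congrArg Prod.snd h)
    · have := congrArg (fun a : Lb => a.2.2) h
      simp only at this
      omega
    · exact d3 (congrArg Prod.snd h).symm

theorem cov_suc {u : ℕ × ℕ} (hu : u.1 < n) (h4 : u.2 < 4) (hc : CL f n sg L (0, suc f n u)) :
    OnL f n L (suc f n u) ↔ ¬ OnL f n L u := by
  rw [cov_core (suc_fst_lt hu) (suc_lt h4) hc, pr_suc hu h4]

/-- All cores of the ring of the variable at the position `l` are covered. -/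
def RingOK (f : ℕ → ℕ) (n : ℕ) (sg : ℕ → Bool) (L : Lb → ℕ) (l : ℕ) : Prop :=
  ∀ l' < n, f l' = f l → ∀ i < 4, CL f n sg L (0, (l', i))

theorem ring_step {l : ℕ} (hR : RingOK f n sg L l) {k : ℕ} (hk : k < n)
    (hf : f k = f l) : (OnL f n L (k, 1) ↔ ¬ OnL f n L (k, 0)) ∧
      (OnL f n L (nxt f n k, 0) ↔ OnL f n L (k, 0)) := by
  have s0 : suc f n (k, 0) = (k, 1) := rfl
  have s1 : suc f n (k, 1) = (k, 2) := rfl
  have s2 : suc f n (k, 2) = (k, 3) := rfl
  have s3 : suc f n (k, 3) = (nxt f n k, 0) := rfl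
  have h0 := cov_suc (f := f) (sg := sg) (L := L) (u := (k, 0)) hk (by norm_num)
    (by rw [s0]; exact hR k hk hf 1 (by norm_num))
  have h1 := cov_suc (f := f) (sg := sg) (L := L) (u := (k, 1)) hk (by norm_num)
    (by rw [s1]; exact hR k hk hf 2 (by norm_num))
  have h2 := cov_suc (f := f) (sg := sg) (L := L) (u := (k, 2)) hk (by norm_num)
    (by rw [s2]; exact hR k hk hf 3 (by norm_num))
  have h3 := cov_suc (f := f) (sg := sg) (L := L) (u := (k, 3)) hk (by norm_num)
    (by rw [s3]; exact hR _ (nxt_lt hk) ((f_nxt hk).trans hf) 0 (by norm_num))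
  rw [s0] at h0
  rw [s1] at h1
  rw [s2] at h2
  rw [s3] at h3
  tauto

theorem ring_const {l : ℕ} (hl : l < n) (hR : RingOK f n sg L l) (h : OnL f n L (l, 0)) :
    ∀ m < n, f m = f l → OnL f n L (m, 0) :=
  nxt_trans (S := fun m => OnL f n L (m, 0)) hl
    (fun k hk hf hS => ((ring_step hR hk hf).2).2 hS) h

/-- The clause vertex shows a true literal. -/
theorem clause_true {A : List ℕ} (hA : ∀ x, x ∈ A ↔ ∃ l < n, f l = x ∧ OnL f n L (l, 0)) {j : ℕ}
    (hc : CL f n sg L (0, (3 * j, 9))) (hR : ∀ k < 3, RingOK f n sg L (3 * j + k)) :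
    ∃ k < 3, (f (3 * j + k) ∈ A ↔ sg (3 * j + k) = true) := by
  obtain ⟨y, z, hy, hz, h1, h2, h3, h5, h6, h7⟩ := CL_copy (Or.inr ⟨rfl, by simp⟩) hc
  obtain ⟨⟨t1, t2⟩, t3⟩ := nine_tri rfl h1 h2 h3
  simp only at t1
  -- the position
  set l := y.1 with hl
  have hln : l < n := hy.1
  obtain ⟨k, hk, hlk⟩ : ∃ k < 3, l = 3 * j + k := ⟨l % 3, Nat.mod_lt _ (by norm_num), by omega⟩
  have o := off4 (sg := sg) l
  -- the class contains the tip
  have htip : L (0, (l, off sg l)) = L (0, (3 * j, 9)) := by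
    rcases t3 with ⟨e1, e2⟩ | ⟨e1, e2⟩
    · have : z = (l, off sg l) := Prod.ext t2 e2
      rw [← this]; exact h6
    · have : y = (l, off sg l) := Prod.ext rfl e1
      rw [← this]; exact h5
  have hoff : ¬ OnL f n L (l, off sg l - 4) := by
    intro hon
    have h8 := hon.2
    simp only at h8
    have e1 : off sg l - 4 + 4 = off sg l := by omega
    rw [e1, htip] at h8
    have hv : VL n (0, (l, off sg l - 4)) := ⟨by norm_num, hln, by simp only; omega⟩
    rcases h7 _ hv h8.symm with h | h | h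
    · have := congrArg (fun a : Lb => a.2.2) h
      simp only at this
      omega
    · have := congrArg (fun a : Lb => a.2.2) h
      simp only at this
      omega
    · have := congrArg (fun a : Lb => a.2.2) h
      simp only at this
      omega
  refine ⟨k, hk, ?_⟩
  have hRk := hR k hk
  rw [← hlk] at hRk ⊢
  have hmem : f l ∈ A ↔ OnL f n L (l, 0) := by
    rw [hA]
    constructor
    · rintro ⟨m, hm, hfm, hon⟩
      refine ring_const (sg := sg) hm ?_ hon l hln hfm.symm
      intro l' hl' hf'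
      exact hRk l' hl' (hf'.trans hfm)
    · intro h
      exact ⟨l, hln, rfl, h⟩
  rw [hmem]
  have hst := (ring_step hRk hln rfl).1
  have hcase : (sg l = true ∧ off sg l = 5) ∨ (sg l = false ∧ off sg l = 4) := by
    unfold off
    cases sg l <;> simp
  rcases hcase with ⟨e1, e2⟩ | ⟨e1, e2⟩
  · rw [e2] at hoff
    rw [e1]
    simp only [iff_true]
    by_contra hc
    exact hoff (hst.2 hc)
  · rw [e2] at hoff
    rw [e1]
    simp only [Bool.false_eq_true, iff_false]
    exact hoff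

open Classical in
/-- Counting: few uncovered vertices give few unsatisfied clauses. -/
theorem exists_few {φ : List Clause} {B : ℕ} (hB : ∀ x, (occ φ).count x ≤ B) (L : Lb → ℕ)
    (U : Finset Lb)
    (hU : ∀ u : ℕ × ℕ, u.1 < np φ → u.2 < 10 → (0, u) ∉ U → CL (vr φ) (np φ) (sn φ) L (0, u)) :
    ∃ A : List ℕ, (φ.countP fun c => !(decide (ClauseSat A c))) ≤ (1 + B) * U.card := by
  set f := vr φ with hf
  set n := np φ with hn
  set sg := sn φ with hsg
  set A : List ℕ := ((List.range n).filter fun l => decide (OnL f n L (l, 0))).map f with hAdef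
  have hA : ∀ x, x ∈ A ↔ ∃ l < n, f l = x ∧ OnL f n L (l, 0) := by
    intro x
    rw [hAdef, List.mem_map]
    constructor
    · rintro ⟨l, hl, rfl⟩
      rw [List.mem_filter, List.mem_range, decide_eq_true_iff] at hl
      exact ⟨l, hl.1, rfl, hl.2⟩
    · rintro ⟨l, hl, h1, h2⟩
      refine ⟨l, ?_, h1⟩
      rw [List.mem_filter, List.mem_range, decide_eq_true_iff]
      exact ⟨hl, h2⟩
  refine ⟨A, ?_⟩
  -- the unsatisfied clauses
  obtain ⟨Q, hQ⟩ : ∃ Q : ℕ → Prop, ∀ j, Q j ↔
      ¬ ∃ k < 3, (f (3 * j + k) ∈ A ↔ sg (3 * j + k) = true) := ⟨_, fun j => Iff.rfl⟩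
  have h1 : (φ.countP fun c => !(decide (ClauseSat A c))) =
      ((Finset.range φ.length).filter Q).card := by
    rw [← countP_range]
    conv_lhs => rw [← map_range_getD φ ((0, false), (0, false), (0, false))]
    rw [List.countP_map]
    refine List.countP_congr fun j hj => ?_
    rw [List.mem_range] at hj
    simp only [Function.comp_apply, Bool.not_eq_true', decide_eq_false_iff_not, decide_eq_true_eq]
    rw [clauseSat_iff hj, hQ]
  rw [h1]
  have h2 : ((Finset.range φ.length).filter Q) ⊆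
      (U.image fun a => a.2.1 / 3) ∪ U.biUnion fun a =>
        ((Finset.range n).filter fun l => f l = f a.2.1).image fun l => l / 3 := by
    intro j hj
    rw [Finset.mem_filter, Finset.mem_range, hQ] at hj
    obtain ⟨hj, hj2⟩ := hj
    have hn3 : n = 3 * φ.length := rfl
    by_contra hcon
    rw [Finset.mem_union, not_or, Finset.mem_image, Finset.mem_biUnion] at hcon
    obtain ⟨hc1, hc2⟩ := hcon
    apply hj2
    refine clause_true hA ?_ ?_
    · refine hU (3 * j, 9) (by simp only; omega) (by norm_num) fun h => hc1 ⟨_, h, ?_⟩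
      simp only
      omega
    · intro k hk l' hl' hf' i hi
      refine hU (l', i) hl' (by simp only; omega) fun h => hc2 ⟨_, h, ?_⟩
      rw [Finset.mem_image]
      refine ⟨3 * j + k, ?_, by omega⟩
      rw [Finset.mem_filter, Finset.mem_range]
      exact ⟨by omega, hf'.symm⟩
  refine (Finset.card_le_card h2).trans ((Finset.card_union_le _ _).trans ?_)
  have h3 : (U.image fun a => a.2.1 / 3).card ≤ U.card := Finset.card_image_le
  have h4 : (U.biUnion fun a =>
      ((Finset.range n).filter fun l => f l = f a.2.1).image fun l => l / 3).card ≤ U.card * B := by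
    refine Finset.card_biUnion_le_card_mul _ _ _ fun a _ => ?_
    refine Finset.card_image_le.trans ?_
    rw [hf, hn, card_occ]
    exact hB _
  calc _ ≤ U.card + U.card * B := Nat.add_le_add h3 h4
    _ = (1 + B) * U.card := by ring

end Pool.Agent.Q329.DP
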